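import Pool.Agent.R562.ND.Omega
import Pool.Agent.W966.Vg.Parts
import Pool.Agent.W966.Vg.Rec2
import Pool.Agent.W334.VH.Res

/-!
# Traces of polynomials of matrices
-/

set_option autoImplicit false

namespace Pool.Agent.R562.ND

open MvPolynomial Pool.Agent.W966.Vf Pool.Agent.W966.Vg
open Pool.Agent.H515R2.MMR (omega)

/-- The tree decides the equation `f = 0` generically, with at most `L` multiplications and
divisions: it can accept every zero of `f` outside the zero set of some polynomial `g` relatively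
prime to `f`, and all inputs which it can accept are zeros of one nonzero polynomial `h`. -/
def Decides {K ι : Type} [Field K] [Fintype ι] (t : NTree K ι) (L : ℕ) (f : MvPolynomial ι K) :
    Prop :=
  ∃ g h : MvPolynomial ι K, IsRelPrime f g ∧ h ≠ 0 ∧
    (∀ x, eval x f = 0 → eval x g ≠ 0 → t.Accepts x L) ∧
    ∀ x, t.Accepts x L → eval x h = 0

lemma decides_of_iff {K ι : Type} [Field K] [Fintype ι] {t : NTree K ι} {L : ℕ}
    {f : MvPolynomial ι K} (hf : f ≠ 0) (h : ∀ x, t.Accepts x L ↔ eval x f = 0) :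
    Decides t L f :=
  ⟨1, f, isRelPrime_one_right, hf, fun x hx _ => (h x).mpr hx, fun x hx => (h x).mp hx⟩

theorem decides_deg {K ι : Type} [Field K] [IsAlgClosed K] [CharZero K] [Fintype ι]
    {L : ℕ} {t : NTree K ι} {f : MvPolynomial ι K} (hf0 : f ≠ 0) (H : Decides t L f) :
    Deg K ι (f.totalDegree * L * (f.totalDegree * (f.totalDegree - 1) / 2) +
        f.totalDegree * ((f.totalDegree + 1) * (f.totalDegree + 2) / 2)) f := by
  obtain ⟨g, h, h1, h2, h3, h4⟩ := H
  exact genD Pool.Agent.W975.VH.tay2 Pool.Agent.W320.VG.cmp rec2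
    Pool.Agent.W366.VG.bas Pool.Agent.W366.VG.shift
    Pool.Agent.W976.VH.prod_ Pool.Agent.W976.VH.id_ Pool.Agent.W976.VH.dir_
    Pool.Agent.W334.VHRes.main t f g h hf0 h1 h2 h3 h4

/-- **The lower bound.** -/
theorem lower {K ι : Type} [Field K] [IsAlgClosed K] [CharZero K] [Fintype ι]
    {L m d : ℕ} {t : NTree K ι} {f : MvPolynomial ι K} (hd : f.totalDegree ≤ d)
    (H : Decides t L f) (b : ι → K) (x y z : Fin m → Fin m → ι → K) (γ : K)
    (hγ : γ ≠ 0) (hf : ∀ i j j' k k' l, D3 f b (x i j) (y j' k) (z k' l) =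
      if j = j' ∧ k = k' ∧ l = i then γ else 0) (hm : 0 < m) :
    (m : ℝ) ^ omega ≤ 3 * d ^ 2 * (d - 1 : ℕ) * L + 3 * d * (d + 1) * (d + 2) := by
  have hf0 : f ≠ 0 := by
    rintro rfl
    have h1 := hf ⟨0, hm⟩ ⟨0, hm⟩ ⟨0, hm⟩ ⟨0, hm⟩ ⟨0, hm⟩ ⟨0, hm⟩
    rw [if_pos ⟨rfl, rfl, rfl⟩] at h1
    unfold D3 at h1
    simp only [map_zero] at h1
    exact hγ h1.symm
  have h1 := deg_omega (decides_deg hf0 H) b x y z γ hγ hf hm
  set D := f.totalDegree with hD
  have h2 : 6 * (D * L * (D * (D - 1) / 2) + D * ((D + 1) * (D + 2) / 2)) ≤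
      3 * d ^ 2 * (d - 1) * L + 3 * d * (d + 1) * (d + 2) := by
    have e1 : D * (D - 1) / 2 ≤ d * (d - 1) / 2 :=
      Nat.div_le_div_right (Nat.mul_le_mul hd (Nat.sub_le_sub_right hd 1))
    have e2 : (D + 1) * (D + 2) / 2 ≤ (d + 1) * (d + 2) / 2 :=
      Nat.div_le_div_right (Nat.mul_le_mul (by omega) (by omega))
    have e3 : 2 * (d * (d - 1) / 2) ≤ d * (d - 1) := Nat.mul_div_le _ _
    have e4 : 2 * ((d + 1) * (d + 2) / 2) ≤ (d + 1) * (d + 2) := Nat.mul_div_le _ _
    calc 6 * (D * L * (D * (D - 1) / 2) + D * ((D + 1) * (D + 2) / 2))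
        ≤ 6 * (d * L * (d * (d - 1) / 2) + d * ((d + 1) * (d + 2) / 2)) := by gcongr
      _ = 3 * d * L * (2 * (d * (d - 1) / 2)) + 3 * d * (2 * ((d + 1) * (d + 2) / 2)) := by ring
      _ ≤ 3 * d * L * (d * (d - 1)) + 3 * d * ((d + 1) * (d + 2)) := by gcongr
      _ = 3 * d ^ 2 * (d - 1) * L + 3 * d * (d + 1) * (d + 2) := by ring
  refine h1.trans ?_
  exact_mod_cast h2

section Matrices

variable {K : Type} [Field K] {n : ℕ}

/-- The polynomial `tr p(A)` in the entries of the `n × n` matrix `A`. -/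
noncomputable def traceP (n : ℕ) (p : Polynomial K) : MvPolynomial (Fin n × Fin n) K :=
  (Polynomial.aeval (Matrix.mvPolynomialX (Fin n) (Fin n) K) p).trace

/-- the entries of a matrix -/
def ent (A : Matrix (Fin n) (Fin n) K) : Fin n × Fin n → K := fun v => A v.1 v.2

lemma eval_traceP (p : Polynomial K) (A : Matrix (Fin n) (Fin n) K) :
    eval (ent A) (traceP n p) = (Polynomial.aeval A p).trace := by
  have h1 : (eval (ent A)).mapMatrix (Matrix.mvPolynomialX (Fin n) (Fin n) K) = A := by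
    ext i j
    simp [Matrix.mvPolynomialX, ent]
  unfold traceP
  have h2 : eval (ent A) (Matrix.trace (Polynomial.aeval
      (Matrix.mvPolynomialX (Fin n) (Fin n) K) p)) =
      Matrix.trace ((eval (ent A)).mapMatrix (Polynomial.aeval
        (Matrix.mvPolynomialX (Fin n) (Fin n) K) p)) := by
    simp [Matrix.trace]
  rw [h2]
  congr 1
  have h3 : (eval (ent A)).mapMatrix (Polynomial.aeval
        (Matrix.mvPolynomialX (Fin n) (Fin n) K) p) =
      (aeval (ent A) : MvPolynomial (Fin n × Fin n) K →ₐ[K] K).mapMatrix (Polynomial.aeval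
        (Matrix.mvPolynomialX (Fin n) (Fin n) K) p) := rfl
  rw [h3, ← Polynomial.aeval_algHom_apply]
  rw [show (aeval (ent A) : MvPolynomial (Fin n × Fin n) K →ₐ[K] K).mapMatrix
    (Matrix.mvPolynomialX (Fin n) (Fin n) K) = A from h1]

/-- The entrywise derivative. -/
noncomputable def dM (x : Fin n × Fin n → K) (M : Matrix (Fin n) (Fin n) (MvPolynomial (Fin n × Fin n) K)) :
    Matrix (Fin n) (Fin n) (MvPolynomial (Fin n × Fin n) K) := M.map (dd x)

lemma dM_mul (x : Fin n × Fin n → K)
    (M N : Matrix (Fin n) (Fin n) (MvPolynomial (Fin n × Fin n) K)) :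
    dM x (M * N) = dM x M * N + M * dM x N := by
  ext1 i j
  simp only [dM, Matrix.map_apply, Matrix.mul_apply, Matrix.add_apply, map_sum, dd_mul,
    Finset.sum_add_distrib]
  rw [add_comm]
  congr 1
  exact Finset.sum_congr rfl fun k _ => mul_comm _ _

lemma dM_add (x : Fin n × Fin n → K)
    (M N : Matrix (Fin n) (Fin n) (MvPolynomial (Fin n × Fin n) K)) :
    dM x (M + N) = dM x M + dM x N := by
  ext1 i j
  simp only [dM, Matrix.map_apply, Matrix.add_apply, map_add]

lemma dM_smul (x : Fin n × Fin n → K) (c : K)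
    (M : Matrix (Fin n) (Fin n) (MvPolynomial (Fin n × Fin n) K)) :
    dM x (c • M) = c • dM x M := by
  ext1 i j
  simp only [dM, Matrix.map_apply, Matrix.smul_apply]
  exact (dd x).map_smul c _

lemma dM_C (x : Fin n × Fin n → K) (A : Matrix (Fin n) (Fin n) K) :
    dM x (A.map C) = 0 := by
  ext1 i j
  simp only [dM, Matrix.map_apply, Matrix.zero_apply, dd_C]

lemma dM_X (A : Matrix (Fin n) (Fin n) K) :
    dM (ent A) (Matrix.mvPolynomialX (Fin n) (Fin n) K) = A.map C := by
  ext1 i j
  simp only [dM, Matrix.map_apply, Matrix.mvPolynomialX_apply, dd_X, ent]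

/-- evaluation at the matrix `s • 1` -/
noncomputable def ev (s : K) (M : Matrix (Fin n) (Fin n) (MvPolynomial (Fin n × Fin n) K)) :
    Matrix (Fin n) (Fin n) K := (eval (ent (s • (1 : Matrix (Fin n) (Fin n) K)))).mapMatrix M

lemma ev_mul (s : K) (M N : Matrix (Fin n) (Fin n) (MvPolynomial (Fin n × Fin n) K)) :
    ev s (M * N) = ev s M * ev s N := map_mul _ _ _

lemma ev_add (s : K) (M N : Matrix (Fin n) (Fin n) (MvPolynomial (Fin n × Fin n) K)) :
    ev s (M + N) = ev s M + ev s N := map_add _ _ _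

lemma ev_C (s : K) (A : Matrix (Fin n) (Fin n) K) : ev s (A.map C) = A := by
  ext i j
  simp [ev]

lemma ev_X (s : K) : ev s (Matrix.mvPolynomialX (Fin n) (Fin n) K) = s • 1 := by
  ext i j
  simp [ev, ent]

lemma ev_smul (s c : K) (M : Matrix (Fin n) (Fin n) (MvPolynomial (Fin n × Fin n) K)) :
    ev s (c • M) = c • ev s M := by
  ext i j
  simp [ev, MvPolynomial.smul_eq_C_mul]

/-- the sum of the six products -/
def six (x y z : Matrix (Fin n) (Fin n) K) : Matrix (Fin n) (Fin n) K :=
  x * y * z + x * z * y + y * x * z + y * z * x + z * x * y + z * y * x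

/-- The derivatives of the powers. -/
lemma ev_pow (s : K) (k : ℕ) :
    ev s (Matrix.mvPolynomialX (Fin n) (Fin n) K ^ k) =
      (Polynomial.taylor s (Polynomial.X ^ k)).coeff 0 • 1 ∧
    (∀ x, ev s (dM (ent x) (Matrix.mvPolynomialX (Fin n) (Fin n) K ^ k)) =
      (Polynomial.taylor s (Polynomial.X ^ k)).coeff 1 • x) ∧
    (∀ x y, ev s (dM (ent x) (dM (ent y) (Matrix.mvPolynomialX (Fin n) (Fin n) K ^ k))) =
      (Polynomial.taylor s (Polynomial.X ^ k)).coeff 2 • (x * y + y * x)) ∧
    (∀ x y z, ev s (dM (ent x) (dM (ent y) (dM (ent z)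
      (Matrix.mvPolynomialX (Fin n) (Fin n) K ^ k)))) =
      (Polynomial.taylor s (Polynomial.X ^ k)).coeff 3 • six x y z) := by
  have hcs : ∀ j k, (Polynomial.taylor s (Polynomial.X ^ (k + 1) : Polynomial K)).coeff (j + 1) =
      s * (Polynomial.taylor s (Polynomial.X ^ k)).coeff (j + 1) +
        (Polynomial.taylor s (Polynomial.X ^ k)).coeff j := by
    intro j k
    rw [pow_succ, Polynomial.taylor_mul, Polynomial.taylor_X, mul_add, Polynomial.coeff_add,
      Polynomial.coeff_mul_X, Polynomial.coeff_mul_C]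
    ring
  have hc0 : ∀ k, (Polynomial.taylor s (Polynomial.X ^ k : Polynomial K)).coeff 0 = s ^ k := by
    intro k
    rw [Polynomial.taylor_coeff_zero, Polynomial.eval_pow, Polynomial.eval_X]
  have hd0 : ∀ (x : Fin n × Fin n → K) (A : Matrix (Fin n) (Fin n) K)
      (M : Matrix (Fin n) (Fin n) (MvPolynomial (Fin n × Fin n) K)),
      dM x (M * A.map C) = dM x M * A.map C := by
    intro x A M
    rw [dM_mul, dM_C, mul_zero, add_zero]
  induction k with
  | zero =>
    have h1 : ∀ x : Fin n × Fin n → K,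
        dM x (1 : Matrix (Fin n) (Fin n) (MvPolynomial (Fin n × Fin n) K)) = 0 := by
      intro x
      have : (1 : Matrix (Fin n) (Fin n) (MvPolynomial (Fin n × Fin n) K)) =
          (1 : Matrix (Fin n) (Fin n) K).map C := by
        rw [Matrix.map_one _ (map_zero _) (map_one _)]
      rw [this]
      exact dM_C x 1
    have h2 : ∀ x : Fin n × Fin n → K,
        dM x (0 : Matrix (Fin n) (Fin n) (MvPolynomial (Fin n × Fin n) K)) = 0 := by
      intro x
      ext1 i j
      simp [dM]
    have h3 : ev s (0 : Matrix (Fin n) (Fin n) (MvPolynomial (Fin n × Fin n) K)) = 0 :=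
      map_zero _
    have h4 : ev s (1 : Matrix (Fin n) (Fin n) (MvPolynomial (Fin n × Fin n) K)) = 1 :=
      map_one _
    simp only [pow_zero, h1, h2, h3, h4, Polynomial.taylor_one, Polynomial.coeff_C]
    simp
  | succ k ih =>
    obtain ⟨i0, i1, i2, i3⟩ := ih
    refine ⟨?_, fun x => ?_, fun x y => ?_, fun x y z => ?_⟩
    · rw [pow_succ, ev_mul, i0, ev_X, hc0, hc0, smul_mul_smul_comm, one_mul, pow_succ]
    · rw [pow_succ, dM_mul, dM_X, ev_add, ev_mul, ev_mul, i0, i1, ev_X, ev_C, hcs, add_smul,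
        mul_smul, smul_mul_smul_comm, mul_one, smul_mul_assoc, one_mul, mul_comm, mul_smul]
    · rw [pow_succ, dM_mul, dM_X, dM_add, dM_mul, dM_X, hd0, ev_add, ev_add, ev_mul, ev_mul,
        ev_mul, i2, i1, i1, ev_X, ev_C, ev_C, hcs]
      simp only [add_smul, smul_add, mul_smul, smul_mul_assoc, Algebra.mul_smul_comm, mul_one]
      module
    · rw [pow_succ, dM_mul, dM_X, dM_add, dM_mul, dM_X, hd0, dM_add, dM_add, dM_mul, dM_X, hd0,
        hd0, ev_add, ev_add, ev_add, ev_mul, ev_mul, ev_mul, ev_mul, i3, i2, i2, i2, ev_X, ev_C,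
        ev_C, ev_C, hcs]
      simp only [six, add_smul, smul_add, mul_smul, smul_mul_assoc, Algebra.mul_smul_comm, mul_one,
        add_mul]
      module

/-- The third derivative of the trace of a polynomial. -/
theorem D3_traceP (p : Polynomial K) (s : K) (x y z : Matrix (Fin n) (Fin n) K) :
    D3 (traceP n p) (ent (s • (1 : Matrix (Fin n) (Fin n) K))) (ent x) (ent y) (ent z) =
      (Polynomial.taylor s p).coeff 3 * (six x y z).trace := by
  have htr : ∀ (x : Fin n × Fin n → K)
      (M : Matrix (Fin n) (Fin n) (MvPolynomial (Fin n × Fin n) K)),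
      dd x M.trace = (dM x M).trace := by
    intro x M
    simp [Matrix.trace, dM]
  have hev : ∀ M : Matrix (Fin n) (Fin n) (MvPolynomial (Fin n × Fin n) K),
      eval (ent (s • (1 : Matrix (Fin n) (Fin n) K))) M.trace = (ev s M).trace := by
    intro M
    simp [Matrix.trace, ev]
  unfold D3 traceP
  rw [htr, htr, htr, hev]
  have key : ev s (dM (ent x) (dM (ent y) (dM (ent z)
      (Polynomial.aeval (Matrix.mvPolynomialX (Fin n) (Fin n) K) p)))) =
      (Polynomial.taylor s p).coeff 3 • six x y z := by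
    induction p using Polynomial.induction_on' with
    | add p q hp hq => rw [map_add, dM_add, dM_add, dM_add, ev_add, hp, hq, map_add,
        Polynomial.coeff_add, add_smul]
    | monomial k a =>
      have e1 : Polynomial.aeval (Matrix.mvPolynomialX (Fin n) (Fin n) K)
          (Polynomial.monomial k a) = a • Matrix.mvPolynomialX (Fin n) (Fin n) K ^ k := by
        rw [Polynomial.aeval_monomial, Algebra.smul_def]
      rw [e1, dM_smul, dM_smul, dM_smul, ev_smul, (ev_pow s k).2.2.2, ← mul_smul]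
      congr 1
      rw [← Polynomial.C_mul_X_pow_eq_monomial, Polynomial.taylor_mul, Polynomial.taylor_C,
        Polynomial.coeff_C_mul]
  rw [key, Matrix.trace_smul, smul_eq_mul]

end Matrices

end Pool.Agent.R562.ND
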