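import Pool.Agent.R562.ND.Trace

/-!
# Deciding `tr A³ = c` with few multiplications
-/

set_option autoImplicit false

namespace Pool.Agent.R562.ND

open MvPolynomial Filter Pool.Agent.W966.Vf Pool.Agent.W966.Vg
open Pool.Agent.H515R2.MMR

section

variable {K ι : Type} [Field K] [Fintype ι]

/-- Multiply `N` times, and then continue with `fin`. -/
def chain (a b : ℕ → LF K ι) (fin : NTree K ι) : ℕ → ℕ → NTree K ι
  | 0, _ => fin
  | N + 1, k => .mul (a k) (b k) (chain a b fin N (k + 1))

/-- The results of the multiplications. -/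
def run (a b : ℕ → LF K ι) (x : ι → K) : ℕ → ℕ → K
  | 0 => 0
  | k + 1 => Function.update (run a b x k) k
      ((a k).val x k (run a b x k) * (b k).val x k (run a b x k))

lemma chain_acc (a b : ℕ → LF K ι) (fin : NTree K ι) (x : ι → K) (N : ℕ) :
    ∀ k L, (chain a b fin N k).Acc x k (run a b x k) L ↔
      N ≤ L ∧ fin.Acc x (k + N) (run a b x (k + N)) (L - N) := by
  induction N with
  | zero => intro k L; simp [chain]
  | succ N ih =>
    intro k L
    have h1 : (chain a b fin (N + 1) k).Acc x k (run a b x k) L ↔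
        0 < L ∧ (chain a b fin N (k + 1)).Acc x (k + 1) (run a b x (k + 1)) (L - 1) := Iff.rfl
    rw [h1, ih, show k + 1 + N = k + (N + 1) by ring, show L - 1 - N = L - (N + 1) by omega]
    constructor
    · rintro ⟨h2, h3, h4⟩
      exact ⟨by omega, h4⟩
    · rintro ⟨h2, h3⟩
      exact ⟨by omega, by omega, h3⟩

lemma val_congr2 (f : LF K ι) (x : ι → K) (l : ℕ) {g g' : ℕ → K} (h : ∀ s < l, g s = g' s) :
    f.val x l g = f.val x l g' := by
  unfold LF.val
  congr 1
  exact Finset.sum_congr rfl fun s hs => by rw [h s (Finset.mem_range.mp hs)]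

lemma eval_val (f : LF K ι) (x : ι → K) (l : ℕ) (g : ℕ → MvPolynomial ι K) :
    eval x (f.val X l g) = f.val x l (fun s => eval x (g s)) := by
  unfold LF.val
  simp [algebraMap_eq]

/-- **A computation decides whether its result is zero.** -/
theorem tree_of_comp {M : ℕ} {f : MvPolynomial ι K} (h : NSComp K ι Unit M (fun _ => f)) :
    ∃ t : NTree K ι, ∀ x, t.Accepts x M ↔ eval x f = 0 := by
  obtain ⟨a, b, o, g, hg, ho⟩ := h
  refine ⟨chain a b (.test (o ()) .accept .reject) M 0, fun x => ?_⟩
  have h1 : ∀ k ≤ M, ∀ s < k, run a b x k s = eval x (g s) := by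
    intro k
    induction k with
    | zero => intro _ s hs; omega
    | succ k ih =>
      intro hk s hs
      have ih' := ih (by omega)
      show Function.update (run a b x k) k
        ((a k).val x k (run a b x k) * (b k).val x k (run a b x k)) s = _
      rcases Nat.lt_succ_iff_lt_or_eq.mp hs with h2 | rfl
      · rw [Function.update_of_ne h2.ne, ih' s h2]
      · rw [Function.update_self, hg s (by omega), map_mul, eval_val, eval_val,
          val_congr2 (a s) x s ih', val_congr2 (b s) x s ih']
  have h2 := chain_acc a b (.test (o ()) .accept .reject) x M 0 M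
  have h3 : (chain a b (.test (o ()) .accept .reject) M 0).Accepts x M ↔
      M ≤ M ∧ (NTree.test (o ()) .accept .reject).Acc x (0 + M) (run a b x (0 + M)) (M - M) := h2
  rw [h3, zero_add]
  have h4 : (o ()).val x M (run a b x M) = eval x f := by
    have := ho ()
    simp only at this
    rw [this, eval_val]
    exact val_congr2 _ _ _ (h1 M le_rfl)
  have h5 : (NTree.test (o ()) .accept .reject).Acc x M (run a b x M) (M - M) ↔
      ((o ()).val x M (run a b x M) = 0 ∧ True) ∨ ((o ()).val x M (run a b x M) ≠ 0 ∧ False) :=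
    Iff.rfl
  rw [h5, h4]
  simp

end

lemma fin_dsum {R : ℕ} {A : Type} [AddCommMonoid A] (f : Fin R → A) :
    ∑ t, f t = ∑ s ∈ Finset.range R, if h : s < R then f ⟨s, h⟩ else 0 := by
  rw [Finset.sum_range]
  exact Finset.sum_congr rfl fun t _ => by rw [dif_pos t.2]

/-- The cubic polynomial of a decomposition. -/
theorem comp_of_rank {K : Type} [Field K] {n R : ℕ} (α β γ : Fin R → Fin n → Fin n → K) (c : K) :
    NSComp K (Fin n × Fin n) Unit (R + R) (fun _ => C c + ∑ t : Fin R,
      (∑ v : Fin n × Fin n, C (α t v.1 v.2) * X v) * (∑ v : Fin n × Fin n, C (β t v.1 v.2) * X v) *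
        (∑ v : Fin n × Fin n, C (γ t v.1 v.2) * X v)) := by
  classical
  let lf : (Fin R → Fin n → Fin n → K) → ℕ → LF K (Fin n × Fin n) := fun α s =>
    ⟨0, fun v => if h : s < R then α ⟨s, h⟩ v.1 v.2 else 0, 0⟩
  let pl : (Fin R → Fin n → Fin n → K) → ℕ → MvPolynomial (Fin n × Fin n) K := fun α s =>
    ∑ v : Fin n × Fin n, C (if h : s < R then α ⟨s, h⟩ v.1 v.2 else 0) * X v
  have hlf : ∀ α s l g, (lf α s).val X l g = pl α s := by
    intro α s l g
    simp only [lf, pl, LF.val, algebraMap_eq, map_zero, zero_add, Pi.zero_apply, zero_mul,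
      Finset.sum_const_zero, add_zero]
  refine ⟨fun s => if s < R then lf α s else ⟨0, 0, Pi.single (s - R) 1⟩,
    fun s => if s < R then lf β s else lf γ (s - R),
    fun _ => ⟨c, 0, fun s => if s < R then 0 else 1⟩,
    fun s => if s < R then pl α s * pl β s else pl α (s - R) * pl β (s - R) * pl γ (s - R),
    fun r hr => ?_, fun _ => ?_⟩
  · by_cases h : r < R
    · simp only [if_pos h, hlf]
    · simp only [if_neg h, hlf]
      congr 1
      unfold LF.val
      simp only [algebraMap_eq, map_zero, Pi.zero_apply, zero_mul, Finset.sum_const_zero, zero_add]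
      rw [Finset.sum_eq_single (r - R)]
      · rw [Pi.single_eq_same, map_one, one_mul, if_pos (by omega)]
      · intro s _ hs
        rw [Pi.single_eq_of_ne hs, map_zero, zero_mul]
      · intro h'
        exact absurd (Finset.mem_range.mpr (by omega)) h'
  · simp only [LF.val, algebraMap_eq, Pi.zero_apply, map_zero, zero_mul, Finset.sum_const_zero,
      add_zero]
    congr 1
    rw [Finset.sum_range_add, Finset.sum_eq_zero (s := Finset.range R) (fun s hs => by
      rw [if_pos (Finset.mem_range.mp hs), map_zero, zero_mul]), zero_add, fin_dsum]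
    refine Finset.sum_congr rfl fun s hs => ?_
    have hs' := Finset.mem_range.mp hs
    rw [dif_pos hs', if_neg (by omega), if_neg (by omega), map_one, one_mul,
      Nat.add_sub_cancel_left]
    simp only [pl, dif_pos hs']

/-- **Deciding `tr A³ = c`.** -/
theorem cube_tree (n : ℕ) (c : ℂ) : ∃ t : NTree ℂ (Fin n × Fin n),
    ∀ A : Matrix (Fin n) (Fin n) ℂ, t.Accepts (ent A) (2 * rk n) ↔ (A ^ 3).trace = c := by
  obtain ⟨α, β, γ, h⟩ := hasRank_rk n
  obtain ⟨t, ht⟩ := tree_of_comp (comp_of_rank α β γ (-c))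
  refine ⟨t, fun A => ?_⟩
  rw [two_mul, ht]
  have key : eval (ent A) (C (-c) + ∑ t : Fin (rk n),
      (∑ v : Fin n × Fin n, C (α t v.1 v.2) * X v) * (∑ v : Fin n × Fin n, C (β t v.1 v.2) * X v) *
        (∑ v : Fin n × Fin n, C (γ t v.1 v.2) * X v)) = (A ^ 3).trace - c := by
    simp only [map_add, map_sum, map_mul, eval_C, eval_X, ent]
    have e1 : ∑ t : Fin (rk n), (∑ v : Fin n × Fin n, α t v.1 v.2 * A v.1 v.2) *
        (∑ v : Fin n × Fin n, β t v.1 v.2 * A v.1 v.2) *
        (∑ v : Fin n × Fin n, γ t v.1 v.2 * A v.1 v.2) =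
        ∑ v : Fin n × Fin n, ∑ w : Fin n × Fin n, ∑ u : Fin n × Fin n,
          (if v.2 = w.1 ∧ w.2 = u.1 ∧ u.2 = v.1 then (1 : ℂ) else 0) *
            (A v.1 v.2 * A w.1 w.2 * A u.1 u.2) := by
      have e3 : ∀ v w u : Fin n × Fin n,
          (if v.2 = w.1 ∧ w.2 = u.1 ∧ u.2 = v.1 then (1 : ℂ) else 0) *
            (A v.1 v.2 * A w.1 w.2 * A u.1 u.2) = ∑ t : Fin (rk n),
            α t v.1 v.2 * A v.1 v.2 * (β t w.1 w.2 * A w.1 w.2) * (γ t u.1 u.2 * A u.1 u.2) := by
        intro v w u
        rw [h, Finset.sum_mul]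
        exact Finset.sum_congr rfl fun t _ => by ring
      simp only [e3]
      have e4 : ∀ v w : Fin n × Fin n, ∑ u : Fin n × Fin n, ∑ t : Fin (rk n),
            α t v.1 v.2 * A v.1 v.2 * (β t w.1 w.2 * A w.1 w.2) * (γ t u.1 u.2 * A u.1 u.2) =
          ∑ t : Fin (rk n), ∑ u : Fin n × Fin n,
            α t v.1 v.2 * A v.1 v.2 * (β t w.1 w.2 * A w.1 w.2) * (γ t u.1 u.2 * A u.1 u.2) :=
        fun v w => Finset.sum_comm
      simp only [e4]
      have e5 : ∀ v : Fin n × Fin n, ∑ w : Fin n × Fin n, ∑ t : Fin (rk n), ∑ u : Fin n × Fin n,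
            α t v.1 v.2 * A v.1 v.2 * (β t w.1 w.2 * A w.1 w.2) * (γ t u.1 u.2 * A u.1 u.2) =
          ∑ t : Fin (rk n), ∑ w : Fin n × Fin n, ∑ u : Fin n × Fin n,
            α t v.1 v.2 * A v.1 v.2 * (β t w.1 w.2 * A w.1 w.2) * (γ t u.1 u.2 * A u.1 u.2) :=
        fun v => Finset.sum_comm
      simp only [e5]
      rw [Finset.sum_comm]
      refine Finset.sum_congr rfl fun t _ => ?_
      rw [Finset.sum_mul_sum, Finset.sum_mul]
      refine Finset.sum_congr rfl fun v _ => ?_
      rw [Finset.sum_mul_sum]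
    rw [e1]
    have e2 : (A ^ 3).trace = ∑ i, ∑ j, ∑ k, A i j * A j k * A k i := by
      rw [pow_succ, pow_two, Matrix.trace]
      refine Finset.sum_congr rfl fun i _ => ?_
      rw [Matrix.diag_apply, Matrix.mul_apply]
      simp only [Matrix.mul_apply, Finset.sum_mul]
      exact Finset.sum_comm
    rw [e2, Fintype.sum_prod_type]
    simp only [Fintype.sum_prod_type]
    rw [add_comm, ← sub_eq_add_neg]
    congr 1
    refine Finset.sum_congr rfl fun i _ => Finset.sum_congr rfl fun j _ => ?_
    rw [Finset.sum_eq_single j]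
    · refine Finset.sum_congr rfl fun k _ => ?_
      rw [Finset.sum_eq_single k]
      · rw [Finset.sum_eq_single i]
        · simp
        · intro l _ hl
          simp [hl]
        · intro h'
          exact absurd (Finset.mem_univ _) h'
      · intro k' _ hk
        refine Finset.sum_eq_zero fun l _ => ?_
        rw [if_neg (fun h' => hk h'.2.1.symm), zero_mul]
      · intro h'
        exact absurd (Finset.mem_univ _) h'
    · intro j' _ hj
      refine Finset.sum_eq_zero fun k _ => Finset.sum_eq_zero fun k' _ =>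
        Finset.sum_eq_zero fun l _ => ?_
      rw [if_neg (fun h' => hj h'.1.symm), zero_mul]
    · intro h'
      exact absurd (Finset.mem_univ _) h'
  rw [key, sub_eq_zero]

end Pool.Agent.R562.ND
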