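import Pool.Agent.R562.ND.Trace
import Pool.Agent.R562.NV.Main

/-!
# Deciding `tr p(A) = 0`
-/

set_option autoImplicit false

namespace Pool.Agent.R562.ND

open MvPolynomial Filter Pool.Agent.W966.Vf Pool.Agent.W966.Vg
open Pool.Agent.H515R2.MMR (omega)

variable {K : Type} [Field K]

lemma totalDegree_pow_le (n k : ℕ) (i j : Fin n) :
    ((Matrix.mvPolynomialX (Fin n) (Fin n) K ^ k) i j).totalDegree ≤ k := by
  induction k generalizing i j with
  | zero =>
    rw [pow_zero, Matrix.one_apply]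
    split_ifs <;> simp
  | succ k ih =>
    rw [pow_succ, Matrix.mul_apply]
    refine (totalDegree_finsetSum _ _).trans (Finset.sup_le fun l _ => ?_)
    refine (totalDegree_mul _ _).trans (Nat.add_le_add (ih i l) ?_)
    rw [Matrix.mvPolynomialX_apply]
    exact (totalDegree_X _).le

lemma totalDegree_traceP (n : ℕ) (p : Polynomial K) :
    (traceP n p).totalDegree ≤ p.natDegree := by
  unfold traceP Matrix.trace
  refine (totalDegree_finsetSum _ _).trans (Finset.sup_le fun i _ => ?_)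
  rw [Matrix.diag_apply, Polynomial.aeval_eq_sum_range, Matrix.sum_apply]
  refine (totalDegree_finsetSum _ _).trans (Finset.sup_le fun k hk => ?_)
  rw [Matrix.smul_apply]
  refine (totalDegree_smul_le _ _).trans ((totalDegree_pow_le n k i i).trans ?_)
  exact Nat.lt_succ_iff.mp (Finset.mem_range.mp hk)

section Blocks

lemma tr3 {n : ℕ} (a b c d e f : Fin n) :
    (Matrix.single a b (1 : K) * Matrix.single c d 1 * Matrix.single e f 1).trace =
      if b = c ∧ d = e ∧ a = f then 1 else 0 := by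
  by_cases h1 : b = c
  · subst h1
    rw [Matrix.single_mul_single_same]
    by_cases h2 : d = e
    · subst h2
      rw [Matrix.single_mul_single_same]
      by_cases h3 : a = f
      · subst h3
        simp
      · rw [if_neg (fun h => h3 h.2.2), Matrix.trace_single_eq_of_ne _ _ _ h3]
    · rw [Matrix.single_mul_single_of_ne (h := h2), if_neg (fun h => h2 h.2.1), Matrix.trace_zero]
  · rw [Matrix.single_mul_single_of_ne (h := h1), zero_mul, if_neg (fun h => h1 h.1),
      Matrix.trace_zero]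

lemma trace_six {n m : ℕ} (h : 3 * m ≤ n) (i j j' k k' l : Fin m) :
    (six (Matrix.single (⟨i, by omega⟩ : Fin n) ⟨m + j, by omega⟩ (1 : K))
      (Matrix.single ⟨m + j', by omega⟩ ⟨2 * m + k, by omega⟩ 1)
      (Matrix.single ⟨2 * m + k', by omega⟩ ⟨l, by omega⟩ 1)).trace =
      if j = j' ∧ k = k' ∧ l = i then 3 else 0 := by
  have hi := i.2
  have hj := j.2
  have hj' := j'.2
  have hk := k.2
  have hk' := k'.2
  have hl := l.2
  unfold six
  simp only [Matrix.trace_add, tr3, Fin.mk.injEq]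
  by_cases hc : j = j' ∧ k = k' ∧ l = i
  · obtain ⟨rfl, rfl, rfl⟩ := hc
    have e1 : ∀ P : Prop, ∀ _ : Decidable P, P → (if P then (1 : K) else 0) = 1 :=
      fun P _ h => if_pos h
    have e2 : ∀ P : Prop, ∀ _ : Decidable P, ¬ P → (if P then (1 : K) else 0) = 0 :=
      fun P _ h => if_neg h
    rw [e1 (m + (j : ℕ) = m + (j : ℕ) ∧ 2 * m + (k : ℕ) = 2 * m + (k : ℕ) ∧ (l : ℕ) = l) _
        (by omega),
      e2 (m + (j : ℕ) = 2 * m + k ∧ (l : ℕ) = m + j ∧ (l : ℕ) = 2 * m + k) _ (by omega),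
      e2 (2 * m + (k : ℕ) = l ∧ m + (j : ℕ) = 2 * m + k ∧ m + (j : ℕ) = l) _ (by omega),
      e1 (2 * m + (k : ℕ) = 2 * m + k ∧ (l : ℕ) = l ∧ m + (j : ℕ) = m + j) _ (by omega),
      e1 ((l : ℕ) = l ∧ m + (j : ℕ) = m + j ∧ 2 * m + (k : ℕ) = 2 * m + k) _ (by omega),
      e2 ((l : ℕ) = m + j ∧ 2 * m + (k : ℕ) = l ∧ 2 * m + (k : ℕ) = m + j) _ (by omega),
      if_pos ⟨rfl, rfl, rfl⟩]
    norm_num
  · have hc' : ¬ ((j : ℕ) = j' ∧ (k : ℕ) = k' ∧ (l : ℕ) = i) := by
      rintro ⟨h1, h2, h3⟩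
      exact hc ⟨Fin.ext h1, Fin.ext h2, Fin.ext h3⟩
    rw [if_neg hc, if_neg (by omega), if_neg (by omega), if_neg (by omega), if_neg (by omega),
      if_neg (by omega), if_neg (by omega)]
    simp

/-- **Deciding `tr p(A) = 0`.** -/
theorem trace_lower [IsAlgClosed K] [CharZero K] {n L : ℕ} {p : Polynomial K}
    (hp : 3 ≤ p.natDegree) {t : NTree K (Fin n × Fin n)} (H : Decides t L (traceP n p)) :
    ((n / 3 : ℕ) : ℝ) ^ omega ≤ 3 * p.natDegree ^ 2 * (p.natDegree - 1 : ℕ) * L +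
      3 * p.natDegree * (p.natDegree + 1) * (p.natDegree + 2) := by
  obtain ⟨m, hm⟩ : ∃ m, n / 3 = m := ⟨_, rfl⟩
  rw [hm]
  rcases Nat.eq_zero_or_pos m with rfl | hm0
  · have := Pool.Agent.Y538.Par.two_le_omega
    rw [Nat.cast_zero, Real.zero_rpow (by linarith)]
    positivity
  have hmn : 3 * m ≤ n := by omega
  -- the base point
  obtain ⟨s, hs⟩ : ∃ s : K, (Polynomial.taylor s p).coeff 3 ≠ 0 := by
    by_contra hcon
    push Not at hcon
    have h1 : Polynomial.hasseDeriv 3 p = 0 := by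
      have : Infinite K := CharZero.infinite K
      refine Polynomial.funext fun s => ?_
      rw [← Polynomial.taylor_coeff, hcon s, Polynomial.eval_zero]
    have h2 := congrArg (fun q => Polynomial.coeff q (p.natDegree - 3)) h1
    simp only [Polynomial.hasseDeriv_coeff, Polynomial.coeff_zero] at h2
    rw [Nat.sub_add_cancel hp] at h2
    rcases mul_eq_zero.mp h2 with h3 | h3
    · have h4 : (p.natDegree).choose 3 = 0 := by exact_mod_cast h3
      rw [Nat.choose_eq_zero_iff] at h4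
      omega
    · have h4 : p = 0 := Polynomial.leadingCoeff_eq_zero.mp h3
      rw [h4, Polynomial.natDegree_zero] at hp
      omega
  refine lower (m := m) (totalDegree_traceP n p) H (ent (s • (1 : Matrix (Fin n) (Fin n) K)))
    (fun i j => ent (Matrix.single ⟨i, by omega⟩ ⟨m + j, by omega⟩ 1))
    (fun j k => ent (Matrix.single ⟨m + j, by omega⟩ ⟨2 * m + k, by omega⟩ 1))
    (fun k l => ent (Matrix.single ⟨2 * m + k, by omega⟩ ⟨l, by omega⟩ 1))
    ((Polynomial.taylor s p).coeff 3 * 3) (mul_ne_zero hs (by norm_num)) ?_ hm0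
  intro i j j' k k' l
  rw [D3_traceP, trace_six hmn]
  split_ifs
  · rfl
  · exact mul_zero _

theorem trace_exponent [IsAlgClosed K] [CharZero K] {p : Polynomial K} (hp : 3 ≤ p.natDegree)
    (τ D : ℝ) (h : ∃ᶠ n : ℕ in atTop, ∃ (t : NTree K (Fin n × Fin n)) (L : ℕ),
      Decides t L (traceP n p) ∧ (L : ℝ) ≤ D * (n : ℝ) ^ τ) : omega ≤ τ := by
  have hω := Pool.Agent.Y538.Par.two_le_omega
  set d : ℝ := (p.natDegree : ℝ) with hd
  set C : ℝ := 3 * d ^ 2 * (p.natDegree - 1 : ℕ) with hC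
  have hC0 : 0 ≤ C := by positivity
  set E : ℝ := 3 * d * (d + 1) * (d + 2) with hE
  have hE0 : 0 ≤ E := by positivity
  by_contra hlt
  push Not at hlt
  -- `n ^ ω ≤ (C D + E) 6 ^ ω n ^ max τ 0`
  have hτ : omega ≤ max τ 0 := by
    refine NV.le_of_frequently (c := (1 / 6 : ℝ) ^ omega) (D := C * max D 0 + E)
      (Real.rpow_pos_of_pos (by norm_num) _) ?_
    refine (h.and_eventually (eventually_ge_atTop 3)).mono ?_
    rintro n ⟨⟨t, L, H, hL⟩, hn⟩
    have h1 := trace_lower hp H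
    have hn1 : (1 : ℝ) ≤ n := by exact_mod_cast (by omega : 1 ≤ n)
    have h2 : (1 / 6 : ℝ) * n ≤ ((n / 3 : ℕ) : ℝ) := by
      have h3 : n ≤ 6 * (n / 3) := by omega
      have h4 : (n : ℝ) ≤ 6 * ((n / 3 : ℕ) : ℝ) := by exact_mod_cast h3
      linarith
    have h3 : (1 / 6 : ℝ) ^ omega * (n : ℝ) ^ omega ≤ ((n / 3 : ℕ) : ℝ) ^ omega := by
      rw [← Real.mul_rpow (by norm_num) (by positivity)]
      exact Real.rpow_le_rpow (by positivity) h2 (by linarith)
    have h4 : (n : ℝ) ^ τ ≤ (n : ℝ) ^ (max τ 0) :=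
      Real.rpow_le_rpow_of_exponent_le hn1 (le_max_left _ _)
    have h5 : (1 : ℝ) ≤ (n : ℝ) ^ (max τ 0) := Real.one_le_rpow hn1 (le_max_right _ _)
    have h6 : (L : ℝ) ≤ max D 0 * (n : ℝ) ^ (max τ 0) := by
      refine hL.trans ?_
      refine (mul_le_mul_of_nonneg_right (le_max_left D 0) (by positivity)).trans ?_
      exact mul_le_mul_of_nonneg_left h4 (le_max_right _ _)
    calc (1 / 6 : ℝ) ^ omega * (n : ℝ) ^ omega ≤ ((n / 3 : ℕ) : ℝ) ^ omega := h3
      _ ≤ C * L + E := h1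
      _ ≤ C * (max D 0 * (n : ℝ) ^ (max τ 0)) + E * (n : ℝ) ^ (max τ 0) := by
          refine add_le_add (mul_le_mul_of_nonneg_left h6 hC0) ?_
          nlinarith
      _ = (C * max D 0 + E) * (n : ℝ) ^ (max τ 0) := by ring
  rcases le_total τ 0 with h0 | h0
  · rw [max_eq_right h0] at hτ
    linarith
  · rw [max_eq_left h0] at hτ
    linarith

end Blocks

end Pool.Agent.R562.ND
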