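import Pool.Agent.W966.Vg.Defs

/-!
# The third derivative of a polynomial with few multiplications
-/

set_option autoImplicit false

namespace Pool.Agent.R562.ND

open MvPolynomial Pool.Agent.W966.Vg

section

variable {P ι : Type} [CommRing P]

/-- The derivative in the direction `x`. -/
noncomputable def dd (x : ι → P) : Derivation P (MvPolynomial ι P) (MvPolynomial ι P) :=
  mkDerivation P fun i => C (x i)

/-- The third derivative of the polynomial `f` at the point `b`, in the directions `x, y, z`. -/
noncomputable def D3 (f : MvPolynomial ι P) (b x y z : ι → P) : P :=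
  eval b (dd x (dd y (dd z f)))

lemma dd_mul (x : ι → P) (p q : MvPolynomial ι P) : dd x (p * q) = p * dd x q + q * dd x p := by
  rw [Derivation.leibniz, smul_eq_mul, smul_eq_mul]

lemma dd_C (x : ι → P) (c : P) : dd x (C c) = 0 := by
  rw [← algebraMap_eq]
  exact Derivation.map_algebraMap _ _

lemma dd_C_mul (x : ι → P) (c : P) (p : MvPolynomial ι P) : dd x (C c * p) = C c * dd x p := by
  rw [dd_mul, dd_C, mul_zero, add_zero]

lemma dd_X (x : ι → P) (i : ι) : dd x (X i) = C (x i) := mkDerivation_X P _ i

variable [Fintype ι]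

lemma dd_val (x : ι → P) (f : LF P ι) (l : ℕ) (g : ℕ → MvPolynomial ι P) :
    dd x (f.val X l g) = C (∑ i, f.x i * x i) + ∑ s ∈ Finset.range l, C (f.r s) * dd x (g s) := by
  unfold LF.val
  rw [map_add, map_add, map_sum, map_sum, algebraMap_eq, dd_C, zero_add, map_sum]
  congr 1
  · refine Finset.sum_congr rfl fun i _ => ?_
    rw [dd_C_mul, dd_X, ← C_mul]
  · exact Finset.sum_congr rfl fun s _ => dd_C_mul _ _ _

lemma dd2_val (x y : ι → P) (f : LF P ι) (l : ℕ) (g : ℕ → MvPolynomial ι P) :
    dd x (dd y (f.val X l g)) = ∑ s ∈ Finset.range l, C (f.r s) * dd x (dd y (g s)) := by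
  rw [dd_val, map_add, dd_C, zero_add, map_sum]
  exact Finset.sum_congr rfl fun s _ => dd_C_mul _ _ _

lemma dd3_val (x y z : ι → P) (f : LF P ι) (l : ℕ) (g : ℕ → MvPolynomial ι P) :
    dd x (dd y (dd z (f.val X l g))) =
      ∑ s ∈ Finset.range l, C (f.r s) * dd x (dd y (dd z (g s))) := by
  rw [dd2_val, map_sum]
  exact Finset.sum_congr rfl fun s _ => dd_C_mul _ _ _

/-- **The third derivative of a polynomial with few multiplications**. -/
theorem cubic {M : ℕ} {f : MvPolynomial ι P} (h : NSComp P ι Unit M (fun _ => f)) (b : ι → P) :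
    ∃ α β w : Fin M → (ι → P) → P, ∀ x y z, D3 f b x y z =
      ∑ q, ((α q x * β q y + α q y * β q x) * w q z + (α q x * β q z + α q z * β q x) * w q y +
        (α q y * β q z + α q z * β q y) * w q x) := by
  classical
  obtain ⟨a, c, o, g, hg, ho⟩ := h
  let A : ℕ → MvPolynomial ι P := fun r => (a r).val X r g
  let B : ℕ → MvPolynomial ι P := fun r => (c r).val X r g
  let α : Fin M → (ι → P) → P := fun q x => eval b (dd x (A q))
  let β : Fin M → (ι → P) → P := fun q x => eval b (dd x (B q))
  let S2 : Submodule P ((ι → P) → (ι → P) → P) := Submodule.span P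
    (Set.range fun q : Fin M => fun x y => α q x * β q y + α q y * β q x)
  -- second derivatives
  have h2sum : ∀ (u : LF P ι) (r : ℕ), (∀ s < r, (fun x y => eval b (dd x (dd y (g s)))) ∈ S2) →
      (fun x y => eval b (dd x (dd y (u.val X r g)))) ∈ S2 := by
    intro u r hr
    have e1 : (fun x y => eval b (dd x (dd y (u.val X r g)))) =
        ∑ s ∈ Finset.range r, u.r s • (fun x y : ι → P => eval b (dd x (dd y (g s)))) := by
      funext x y
      rw [dd2_val, map_sum, Finset.sum_apply, Finset.sum_apply]
      refine Finset.sum_congr rfl fun s _ => ?_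
      rw [map_mul, eval_C]
      rfl
    rw [e1]
    exact Submodule.sum_mem _ fun s hs => Submodule.smul_mem _ _ (hr s (Finset.mem_range.mp hs))
  have h2 : ∀ r < M, (fun x y => eval b (dd x (dd y (g r)))) ∈ S2 := by
    intro r
    induction r using Nat.strong_induction_on with
    | _ r ih =>
      intro hr
      have hA := h2sum (a r) r fun s hs => ih s hs (hs.trans hr)
      have hB := h2sum (c r) r fun s hs => ih s hs (hs.trans hr)
      have e1 : (fun x y => eval b (dd x (dd y (g r)))) =
          eval b (A r) • (fun x y : ι → P => eval b (dd x (dd y (B r)))) +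
          eval b (B r) • (fun x y : ι → P => eval b (dd x (dd y (A r)))) +
          (fun x y => α ⟨r, hr⟩ x * β ⟨r, hr⟩ y + α ⟨r, hr⟩ y * β ⟨r, hr⟩ x) := by
        funext x y
        rw [hg r hr]
        show eval b (dd x (dd y (A r * B r))) = eval b (A r) * eval b (dd x (dd y (B r))) +
          eval b (B r) * eval b (dd x (dd y (A r))) +
          (eval b (dd x (A r)) * eval b (dd y (B r)) + eval b (dd y (A r)) * eval b (dd x (B r)))
        rw [dd_mul, map_add, dd_mul, dd_mul, map_add, map_add, map_add, map_mul, map_mul, map_mul,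
          map_mul]
        ring
      rw [e1]
      exact Submodule.add_mem _ (Submodule.add_mem _ (Submodule.smul_mem _ _ hB)
        (Submodule.smul_mem _ _ hA)) (Submodule.subset_span ⟨⟨r, hr⟩, rfl⟩)
  -- third derivatives
  let Sy : Fin M → ((ι → P) → P) → (ι → P) → (ι → P) → (ι → P) → P := fun q w x y z =>
    (α q x * β q y + α q y * β q x) * w z + (α q x * β q z + α q z * β q x) * w y +
        (α q y * β q z + α q z * β q y) * w x
  let T : ((ι → P) → (ι → P) → (ι → P) → P) → Prop := fun ψ =>
    ∃ w : Fin M → (ι → P) → P, ∀ x y z, ψ x y z = ∑ q, Sy q (w q) x y z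
  have T0 : T 0 := ⟨fun _ _ => 0, fun x y z => by simp [Sy]⟩
  have Tadd : ∀ {ψ φ}, T ψ → T φ → T (ψ + φ) := by
    rintro ψ φ ⟨w, hw⟩ ⟨v, hv⟩
    refine ⟨fun q x => w q x + v q x, fun x y z => ?_⟩
    show ψ x y z + φ x y z = _
    rw [hw, hv, ← Finset.sum_add_distrib]
    refine Finset.sum_congr rfl fun q _ => ?_
    simp only [Sy]
    ring
  have Tsmul : ∀ (k : P) {ψ}, T ψ → T (k • ψ) := by
    rintro k ψ ⟨w, hw⟩
    refine ⟨fun q x => k * w q x, fun x y z => ?_⟩
    show k * ψ x y z = _
    rw [hw, Finset.mul_sum]
    refine Finset.sum_congr rfl fun q _ => ?_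
    simp only [Sy]
    ring
  have Tsum : ∀ (r : ℕ) (ψ : ℕ → (ι → P) → (ι → P) → (ι → P) → P), (∀ s < r, T (ψ s)) →
      T (∑ s ∈ Finset.range r, ψ s) := by
    intro r ψ
    induction r with
    | zero => intro _; simpa using T0
    | succ r ih =>
      intro h
      rw [Finset.sum_range_succ]
      exact Tadd (ih fun s hs => h s (by omega)) (h r (by omega))
  have Tprod : ∀ (γ : (ι → P) → P) (φ : (ι → P) → (ι → P) → P), φ ∈ S2 →
      T (fun x y z => γ x * φ y z + γ y * φ x z + γ z * φ x y) := by
    intro γ φ hφ
    obtain ⟨k, hk⟩ := (Submodule.mem_span_range_iff_exists_fun P).mp hφ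
    refine ⟨fun q x => k q * γ x, fun x y z => ?_⟩
    have e1 : ∀ x y, φ x y = ∑ q, k q * (α q x * β q y + α q y * β q x) := by
      intro x y
      rw [← hk, Finset.sum_apply, Finset.sum_apply]
      rfl
    simp only [e1, Finset.mul_sum, ← Finset.sum_add_distrib]
    refine Finset.sum_congr rfl fun q _ => ?_
    simp only [Sy]
    ring
  have h3sum : ∀ (u : LF P ι) (r : ℕ),
      (∀ s < r, T (fun x y z => eval b (dd x (dd y (dd z (g s)))))) →
      T (fun x y z => eval b (dd x (dd y (dd z (u.val X r g))))) := by
    intro u r hr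
    have e1 : (fun x y z => eval b (dd x (dd y (dd z (u.val X r g))))) =
        ∑ s ∈ Finset.range r, u.r s •
          (fun x y z : ι → P => eval b (dd x (dd y (dd z (g s))))) := by
      funext x y z
      rw [dd3_val, map_sum, Finset.sum_apply, Finset.sum_apply, Finset.sum_apply]
      refine Finset.sum_congr rfl fun s _ => ?_
      rw [map_mul, eval_C]
      rfl
    rw [e1]
    exact Tsum r _ fun s hs => Tsmul _ (hr s hs)
  have h3 : ∀ r < M, T (fun x y z => eval b (dd x (dd y (dd z (g r))))) := by
    intro r
    induction r using Nat.strong_induction_on with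
    | _ r ih =>
      intro hr
      have hA := h3sum (a r) r fun s hs => ih s hs (hs.trans hr)
      have hB := h3sum (c r) r fun s hs => ih s hs (hs.trans hr)
      have hA2 := h2sum (a r) r fun s hs => h2 s (hs.trans hr)
      have hB2 := h2sum (c r) r fun s hs => h2 s (hs.trans hr)
      have e1 : (fun x y z => eval b (dd x (dd y (dd z (g r))))) =
          eval b (A r) • (fun x y z : ι → P => eval b (dd x (dd y (dd z (B r))))) +
          eval b (B r) • (fun x y z : ι → P => eval b (dd x (dd y (dd z (A r))))) +
          (fun x y z => eval b (dd x (A r)) * eval b (dd y (dd z (B r))) +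
            eval b (dd y (A r)) * eval b (dd x (dd z (B r))) +
            eval b (dd z (A r)) * eval b (dd x (dd y (B r)))) +
          (fun x y z => eval b (dd x (B r)) * eval b (dd y (dd z (A r))) +
            eval b (dd y (B r)) * eval b (dd x (dd z (A r))) +
            eval b (dd z (B r)) * eval b (dd x (dd y (A r)))) := by
        funext x y z
        rw [hg r hr]
        show eval b (dd x (dd y (dd z (A r * B r)))) =
          eval b (A r) * eval b (dd x (dd y (dd z (B r)))) +
          eval b (B r) * eval b (dd x (dd y (dd z (A r)))) +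
          (eval b (dd x (A r)) * eval b (dd y (dd z (B r))) +
            eval b (dd y (A r)) * eval b (dd x (dd z (B r))) +
            eval b (dd z (A r)) * eval b (dd x (dd y (B r)))) +
          (eval b (dd x (B r)) * eval b (dd y (dd z (A r))) +
            eval b (dd y (B r)) * eval b (dd x (dd z (A r))) +
            eval b (dd z (B r)) * eval b (dd x (dd y (A r))))
        simp only [dd_mul, map_add, map_mul]
        ring
      rw [e1]
      exact Tadd (Tadd (Tadd (Tsmul _ hB) (Tsmul _ hA))
        (Tprod (fun x => eval b (dd x (A r))) _ hB2)) (Tprod (fun x => eval b (dd x (B r))) _ hA2)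
  obtain ⟨w, hw⟩ := h3sum (o ()) M h3
  refine ⟨α, β, w, fun x y z => ?_⟩
  have := ho ()
  simp only at this
  unfold D3
  rw [this]
  exact hw x y z

end

end Pool.Agent.R562.ND
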