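import Pool.Agent.R562.ND.Deg
import Pool.Agent.R562.ND.Cubic
import Pool.Agent.W239.VF.Ad

/-!
# From degenerations of computations to the exponent
-/

set_option autoImplicit false

namespace Pool.Agent.R562.ND

open MvPolynomial Pool.Agent.W966.Vf Pool.Agent.W966.Vg
open Pool.Agent.H515R2.MMR (omega)

lemma dd_map {R S ι : Type} [CommRing R] [CommRing S] (φ : R →+* S) (x : ι → R)
    (p : MvPolynomial ι R) :
    MvPolynomial.map φ (dd x p) = dd (fun i => φ (x i)) (MvPolynomial.map φ p) := by
  induction p using MvPolynomial.induction_on with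
  | C c => rw [map_C, dd_C, dd_C, map_zero]
  | add p q hp hq => rw [map_add, map_add, map_add, map_add, hp, hq]
  | mul_X p i hp =>
    rw [dd_mul, map_add, map_mul, map_mul, map_mul, dd_mul, hp, map_X, dd_X, dd_X, map_C]

lemma D3_map {R S ι : Type} [CommRing R] [CommRing S] (φ : R →+* S) (f : MvPolynomial ι R)
    (b x y z : ι → R) :
    φ (D3 f b x y z) = D3 (MvPolynomial.map φ f) (fun i => φ (b i)) (fun i => φ (x i))
      (fun i => φ (y i)) (fun i => φ (z i)) := by
  unfold D3
  rw [← dd_map, ← dd_map, ← dd_map]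
  rw [eval_map]
  exact (eval₂_comp_left φ (RingHom.id R) b _).trans rfl

/-- Approximate decompositions over arbitrary finite index types. -/
theorem ad {Ω T : Type} [Field Ω] [CharZero Ω] [Fintype T] (m H : ℕ)
    (a b c : T → Fin m → Fin m → PowerSeries Ω) (hm : 0 < m)
    (h : ∀ i j j' k k' l : Fin m, ∀ d ≤ H,
      PowerSeries.coeff d (∑ t : T, a t i j * b t j' k * c t k' l) =
        if d = H ∧ j = j' ∧ k = k' ∧ l = i then 1 else 0) :
    (m : ℝ) ^ omega ≤ Fintype.card T := by
  classical
  let e := Fintype.equivFin T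
  refine Pool.Agent.W239.VF.main Ω m (Fintype.card T) H (fun t => a (e.symm t))
    (fun t => b (e.symm t)) (fun t => c (e.symm t)) hm ?_
  intro i j j' k k' l d hd
  rw [← h i j j' k k' l d hd]
  congr 1
  exact Equiv.sum_comp e.symm (fun t => a t i j * b t j' k * c t k' l)

/-- **From degenerations of computations to the exponent.** -/
theorem deg_omega {K ι : Type} [Field K] [CharZero K] [Fintype ι] {M m : ℕ}
    {f : MvPolynomial ι K} (h : Deg K ι M f) (b : ι → K) (x y z : Fin m → Fin m → ι → K) (γ : K)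
    (hγ : γ ≠ 0) (hf : ∀ i j j' k k' l, D3 f b (x i j) (y j' k) (z k' l) =
      if j = j' ∧ k = k' ∧ l = i then γ else 0) (hm : 0 < m) :
    (m : ℝ) ^ omega ≤ 6 * M := by
  classical
  obtain ⟨Ω, _, _, F, hF, hFf⟩ := h
  have : CharZero Ω := charZero_of_injective_algebraMap (algebraMap K Ω).injective
  let R := PowerSeries Ω
  let P := FractionRing R
  let ε : K →+* R := (PowerSeries.C (R := Ω)).comp (algebraMap K Ω)
  let φ : R →+* P := algebraMap R P
  have hinj : Function.Injective φ := IsFractionRing.injective R P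
  obtain ⟨α, β, w, hc⟩ := cubic hF (fun i => φ (ε (b i)))
  let U : Fin m → Fin m → Fin m → Fin m → Fin m → Fin m → R := fun i j j' k k' l =>
    D3 F (fun s => ε (b s)) (fun s => ε (x i j s)) (fun s => ε (y j' k s)) (fun s => ε (z k' l s))
  have hU0 : ∀ i j j' k k' l, PowerSeries.constantCoeff (U i j j' k k' l) =
      if j = j' ∧ k = k' ∧ l = i then algebraMap K Ω γ else 0 := by
    intro i j j' k k' l
    have h1 := D3_map (PowerSeries.constantCoeff (R := Ω)) F (fun s => ε (b s))
      (fun s => ε (x i j s)) (fun s => ε (y j' k s)) (fun s => ε (z k' l s))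
    have h2 : ∀ c : K, PowerSeries.constantCoeff (ε c) = algebraMap K Ω c := fun c =>
      PowerSeries.constantCoeff_C _
    simp only [h2] at h1
    rw [hFf, ← D3_map (algebraMap K Ω), hf] at h1
    refine h1.trans ?_
    split_ifs
    · rfl
    · exact map_zero _
  -- vectors over `P`
  let xP : Fin m → Fin m → ι → P := fun i j s => φ (ε (x i j s))
  let yP : Fin m → Fin m → ι → P := fun i j s => φ (ε (y i j s))
  let zP : Fin m → Fin m → ι → P := fun i j s => φ (ε (z i j s))
  have hUP : ∀ i j j' k k' l, φ (U i j j' k k' l) =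
      ∑ q, ((α q (xP i j) * β q (yP j' k) + α q (yP j' k) * β q (xP i j)) * w q (zP k' l) +
        (α q (xP i j) * β q (zP k' l) + α q (zP k' l) * β q (xP i j)) * w q (yP j' k) +
        (α q (yP j' k) * β q (zP k' l) + α q (zP k' l) * β q (yP j' k)) * w q (xP i j)) := by
    intro i j j' k k' l
    have h1 := D3_map φ F (fun s => ε (b s))
      (fun s => ε (x i j s)) (fun s => ε (y j' k s)) (fun s => ε (z k' l s))
    exact h1.trans (hc _ _ _)
  -- common denominator
  let fam : (Fin 3 × Fin 3) × (Fin M × Fin m × Fin m) → P := fun t =>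
    (![α, β, w] t.1.1) t.2.1 ((![xP, yP, zP] t.1.2) t.2.2.1 t.2.2.2)
  obtain ⟨⟨s, hs⟩, hint⟩ := IsLocalization.exist_integer_multiples_of_finite
    (nonZeroDivisors R) fam
  have hs0 : s ≠ 0 := nonZeroDivisors.ne_zero hs
  choose fam' hfam' using hint
  have hfam : ∀ t, φ (fam' t) = φ s * fam t := by
    intro t
    have := hfam' t
    rw [this]
    exact Algebra.smul_def _ _
  let A' : Fin 3 → Fin 3 → Fin M → Fin m → Fin m → R := fun u v q i j => fam' ((u, v), (q, i, j))
  have hA' : ∀ u v q i j, φ (A' u v q i j) = φ s * (![α, β, w] u) q ((![xP, yP, zP] v) i j) :=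
    fun u v q i j => hfam _
  obtain ⟨H, u, hu⟩ := IsDiscreteValuationRing.associated_pow_irreducible
    (x := s ^ 3) (pow_ne_zero 3 hs0) (PowerSeries.X_irreducible (R := Ω))
  have hu' : (u : R) * s ^ 3 = PowerSeries.X ^ H := by
    rw [← hu]
    ring
  -- the decomposition
  have key := ad (Ω := Ω) (T := Fin M × Fin 6) m H
    (fun t i j => ![A' 0 0, A' 1 0, A' 0 0, A' 1 0, A' 2 0, A' 2 0] t.2 t.1 i j)
    (fun t i j => ![A' 1 1, A' 0 1, A' 2 1, A' 2 1, A' 0 1, A' 1 1] t.2 t.1 i j)
    (fun t i j => (u : R) * PowerSeries.C (algebraMap K Ω γ)⁻¹ *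
      ![A' 2 2, A' 2 2, A' 1 2, A' 0 2, A' 1 2, A' 0 2] t.2 t.1 i j) hm (by
      intro i j j' k k' l d hd
      have e1 : (∑ t : Fin M × Fin 6,
          ![A' 0 0, A' 1 0, A' 0 0, A' 1 0, A' 2 0, A' 2 0] t.2 t.1 i j *
          ![A' 1 1, A' 0 1, A' 2 1, A' 2 1, A' 0 1, A' 1 1] t.2 t.1 j' k *
          ((u : R) * PowerSeries.C (algebraMap K Ω γ)⁻¹ *
            ![A' 2 2, A' 2 2, A' 1 2, A' 0 2, A' 1 2, A' 0 2] t.2 t.1 k' l)) =
          PowerSeries.X ^ H * (PowerSeries.C (algebraMap K Ω γ)⁻¹ * U i j j' k k' l) := by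
        apply hinj
        rw [← hu', Fintype.sum_prod_type, map_sum]
        simp only [map_mul, map_pow, hUP, Finset.mul_sum]
        refine Finset.sum_congr rfl fun q _ => ?_
        rw [Fin.sum_univ_six]
        simp only [map_add, map_mul]
        have r1 : ∀ v i j, φ (A' 0 v q i j) = φ s * α q ((![xP, yP, zP] v) i j) :=
          fun v i j => hA' 0 v q i j
        have r2 : ∀ v i j, φ (A' 1 v q i j) = φ s * β q ((![xP, yP, zP] v) i j) :=
          fun v i j => hA' 1 v q i j
        have r3 : ∀ v i j, φ (A' 2 v q i j) = φ s * w q ((![xP, yP, zP] v) i j) :=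
          fun v i j => hA' 2 v q i j
        simp [r1, r2, r3]
        ring
      rw [e1, PowerSeries.coeff_X_pow_mul']
      by_cases hde : H ≤ d
      · have : d = H := le_antisymm hd hde
        subst this
        rw [if_pos le_rfl, Nat.sub_self, PowerSeries.coeff_zero_eq_constantCoeff_apply, map_mul,
          PowerSeries.constantCoeff_C, hU0]
        have hγ' : algebraMap K Ω γ ≠ 0 := by
          rw [Ne, map_eq_zero]
          exact hγ
        by_cases hc : j = j' ∧ k = k' ∧ l = i
        · rw [if_pos hc, if_pos ⟨rfl, hc⟩, inv_mul_cancel₀ hγ']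
        · rw [if_neg hc, if_neg (fun h => hc h.2), mul_zero]
      · rw [if_neg hde, if_neg]
        rintro ⟨h, -⟩
        exact hde h.ge)
  refine key.trans (le_of_eq ?_)
  rw [Fintype.card_prod, Fintype.card_fin, Fintype.card_fin]
  push_cast
  ring

end Pool.Agent.R562.ND
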