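import Pool.Agent.W966.Vg.Gen4
import Pool.Agent.W191.VH.Sub

/-!
# Nondeterministic decision of hypersurfaces: degenerations of computations

The proofs of `finishD`, `midD`, `mainD`, `genD` are those of `finish2`, `mid_H`, `main_H`, `gen_C` in
`Pool.Agent.W966.Vg`, with a degeneration instead of a closure as the conclusion.
-/

set_option autoImplicit false

namespace Pool.Agent.R562.ND

open MvPolynomial Filter Pool.Agent.W966.Vf Pool.Agent.W966.Vg

/-- The polynomial `f` over `K` is a degeneration of a polynomial which can be computed with `M`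
multiplications: for some field `Ω ⊇ K`, some polynomial with coefficients in the power series ring
`Ω⟦X⟧`, which can be computed with `M` multiplications over the field of fractions of `Ω⟦X⟧`,
becomes `f` if `X` is replaced by `0`. -/
def Deg (K ι : Type) [Field K] [Fintype ι] (M : ℕ) (f : MvPolynomial ι K) : Prop :=
  ∃ (Ω : Type) (_ : Field Ω) (_ : Algebra K Ω) (F : MvPolynomial ι (PowerSeries Ω)),
    NSComp (FractionRing (PowerSeries Ω)) ι Unit M
      (fun _ => MvPolynomial.map (algebraMap (PowerSeries Ω) (FractionRing (PowerSeries Ω))) F) ∧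
    MvPolynomial.map PowerSeries.constantCoeff F = MvPolynomial.map (algebraMap K Ω) f

lemma Deg.mono {K ι : Type} [Field K] [Fintype ι] {M M' : ℕ} {f : MvPolynomial ι K}
    (h : Deg K ι M f) (hM : M ≤ M') : Deg K ι M' f := by
  obtain ⟨Ω, i1, i2, F, h1, h2⟩ := h
  exact ⟨Ω, i1, i2, F, NSComp.mono hM h1, h2⟩

/-- substitution of `0` for the variable `none` -/
noncomputable def sb0 (R ι : Type) [CommRing R] : MvPolynomial (Option ι) R →ₐ[R] MvPolynomial ι R :=
  aeval (fun o => Option.elim o 0 X)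

lemma sb0_map {R S ι : Type} [CommRing R] [CommRing S] (φ : R →+* S)
    (F : MvPolynomial (Option ι) R) :
    MvPolynomial.map φ (sb0 R ι F) = sb0 S ι (MvPolynomial.map φ F) := by
  unfold sb0
  induction F using MvPolynomial.induction_on with
  | C c => rw [map_C, aeval_C, aeval_C, algebraMap_eq, algebraMap_eq, map_C]
  | add p q hp hq => rw [map_add, map_add, map_add, map_add, hp, hq]
  | mul_X p i hp =>
    rw [map_mul, map_mul, map_mul, map_mul, hp, map_X, aeval_X, aeval_X]
    rcases i with _ | i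
    · simp
    · simp

lemma Deg.sub {K ι : Type} [Field K] [Fintype ι] {M : ℕ} (a : ι → K) (c : K)
    (f : MvPolynomial ι K) (hc : c ≠ 0)
    (h : Deg K (Option ι) M (C c⁻¹ * aeval (fun i => X (some i) + C (a i) * X none :
      ι → MvPolynomial (Option ι) K) f)) : Deg K ι M f := by
  obtain ⟨Ω, i1, i2, F, h1, h2⟩ := h
  refine ⟨Ω, i1, i2, C (PowerSeries.C (algebraMap K Ω c)) * sb0 _ ι F, ?_, ?_⟩
  · have := Pool.Agent.W191.VH.comp M (algebraMap (PowerSeries Ω) (FractionRing (PowerSeries Ω))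
      (PowerSeries.C (algebraMap K Ω c))) _ h1
    rw [show (fun _ : Unit => MvPolynomial.map (algebraMap (PowerSeries Ω)
      (FractionRing (PowerSeries Ω))) (C (PowerSeries.C (algebraMap K Ω c)) * sb0 _ ι F)) =
      fun v : Unit => C (algebraMap (PowerSeries Ω) (FractionRing (PowerSeries Ω))
      (PowerSeries.C (algebraMap K Ω c))) * Pool.Agent.W191.VH.sb (FractionRing (PowerSeries Ω)) ι
        (MvPolynomial.map (algebraMap (PowerSeries Ω) (FractionRing (PowerSeries Ω))) F) from ?_]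
    · exact this
    · funext v
      rw [map_mul, map_C, sb0_map]
      rfl
  · rw [map_mul, map_C, sb0_map, h2, PowerSeries.constantCoeff_C, ← sb0_map, ← map_C, ← map_mul]
    congr 1
    have h3 : sb0 K ι (aeval (fun i => X (some i) + C (a i) * X none :
        ι → MvPolynomial (Option ι) K) f) = f := by
      have h4 : (sb0 K ι).comp (aeval (fun i => X (some i) + C (a i) * X none :
        ι → MvPolynomial (Option ι) K)) = AlgHom.id K _ := by
        refine MvPolynomial.algHom_ext fun i => ?_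
        rw [AlgHom.comp_apply, aeval_X, map_add, map_mul]
        unfold sb0
        rw [aeval_X, aeval_X]
        simp
      exact congrArg (fun F => F f) h4
    have h5 : sb0 K ι (C c⁻¹) = C c⁻¹ := (sb0 K ι).commutes c⁻¹
    rw [map_mul, h3, h5, ← mul_assoc, ← C_mul, mul_inv_cancel₀ hc, C_1, one_mul]

/-- **From a computation over power series to the closure**, for a product over all roots. -/
theorem finishD (hBAS : S_BAS) (hSHIFT : S_SHIFT) (hPROD : S_PROD) {K Ω : Type}
    [Field K] [CharZero K] [Field Ω] [Algebra K Ω] {ι V : Type} [Fintype ι] [Fintype V]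
    (M n d : ℕ) (f : MvPolynomial (Option ι) K) (b : ι → Ω)
    (G Fv : V × Fin (d + 1) → MvPolynomial ι (PowerSeries Ω))
    (hGc : NSComp (PowerSeries Ω) ι (V × Fin (d + 1)) M G)
    (hFG : ∀ v, G v = C (PowerSeries.X ^ n) * Fv v)
    (hred : prodE d (fun v => MvPolynomial.map PowerSeries.constantCoeff (Fv v)) =
      aeval (fun j => Option.elim j (X none) fun i => X (some i) + C (b i) :
        Option ι → MvPolynomial (Option ι) Ω) f) :
    Deg K (Option ι) (M + Fintype.card V * ((d + 1) * (d + 2) / 2)) f := by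
  let P := FractionRing (PowerSeries Ω)
  have hinjP : Function.Injective (algebraMap (PowerSeries Ω) P) :=
    IsFractionRing.injective _ _
  have hX : algebraMap (PowerSeries Ω) P (PowerSeries.X ^ n) ≠ 0 := by
    intro h1
    have := hinjP (h1.trans (map_zero (algebraMap (PowerSeries Ω) P)).symm)
    exact pow_ne_zero _ PowerSeries.X_ne_zero this
  have h1 : NSComp P ι (V × Fin (d + 1)) M
      (fun v => MvPolynomial.map (algebraMap (PowerSeries Ω) P) (Fv v)) :=
    hBAS (PowerSeries Ω) P ι (V × Fin (d + 1)) M _ G Fv hGc hX hFG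
  have h1' := hPROD P ι V M d _ h1
  rw [← map_prodE] at h1'
  have h2 := hSHIFT P (Option ι) Unit _ _ (fun j => algebraMap (PowerSeries Ω) P
    (PowerSeries.C (Option.elim j 0 b))) h1'
  let F' : Unit → MvPolynomial (Option ι) (PowerSeries Ω) := fun _ =>
    aeval (fun j => X j - C (PowerSeries.C (Option.elim j 0 b)) :
      Option ι → MvPolynomial (Option ι) (PowerSeries Ω)) (prodE d Fv)
  have h3 : (fun _ : Unit => aeval (fun j => X j - C (algebraMap (PowerSeries Ω) P
      (PowerSeries.C (Option.elim j 0 b)))) (MvPolynomial.map (algebraMap (PowerSeries Ω) P)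
        (prodE d Fv))) = fun v => MvPolynomial.map (algebraMap (PowerSeries Ω) P) (F' v) := by
    funext v
    exact shift_map (algebraMap (PowerSeries Ω) P)
      (fun j => PowerSeries.C (Option.elim j 0 b)) (prodE d Fv)
  rw [h3] at h2
  have h5 : ∀ v, MvPolynomial.map PowerSeries.constantCoeff (F' v) =
      MvPolynomial.map (algebraMap K Ω) f := by
    intro v
    have h6 : MvPolynomial.map PowerSeries.constantCoeff (F' v) =
        aeval (fun j => X j - C (Option.elim j 0 b) : Option ι → MvPolynomial (Option ι) Ω)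
          (MvPolynomial.map PowerSeries.constantCoeff (prodE d Fv)) := by
      have h4 := shift_map (PowerSeries.constantCoeff (R := Ω))
        (fun j => PowerSeries.C (Option.elim j 0 b)) (prodE d Fv)
      simp only [PowerSeries.constantCoeff_C] at h4
      exact h4.symm
    rw [h6, map_prodE, hred]
    exact shift_back' b f
  exact ⟨Ω, inferInstance, inferInstance, F' (), h2, h5 ()⟩

/-- The second half of the main theorem. -/
theorem midD (hCMP : S_CMP) (hBAS : S_BAS) (hSHIFT : S_SHIFT)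
    (hPROD : S_PROD) (hID : S_ID) {K F Ω Ω' : Type} [Field K] [CharZero K]
    [Field F] [Algebra K F] [Field Ω] [Algebra F Ω] [Algebra K Ω] [IsScalarTower K F Ω]
    [Field Ω'] [Algebra Ω Ω'] [Algebra K Ω'] {ι N V : Type} [Fintype ι] [Fintype N]
    [Fintype V] {M d n : ℕ} (o : V → AF K N) (x : ι → F) (y : V → F) (κ : V → PowerSeries Ω)
    (hκ : ∀ v, PowerSeries.constantCoeff (κ v) = algebraMap F Ω (y v))
    (f : MvPolynomial (Option ι) K) (hd : f.totalDegree ≤ d)
    (hf : (aeval (fun j => Option.elim j Polynomial.X fun i => Polynomial.C (x i) :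
      Option ι → Polynomial F) f = ∏ v, (Polynomial.X - Polynomial.C (y v))))
    (u : ι → Ω') (W : ℕ → N → PowerSeries Ω') (τ : F →+* PowerSeries Ω')
    (hu : AlgebraicIndependent Ω u)
    (hKΩ' : ∀ z : K, algebraMap K Ω' z = algebraMap Ω Ω' (algebraMap K Ω z))
    (hτK : ∀ z : K, τ (algebraMap K F z) = PowerSeries.C (algebraMap K Ω' z))
    (hτx : ∀ i, τ (x i) = PowerSeries.C (algebraMap Ω Ω' (algebraMap F Ω (x i))) +
        PowerSeries.C (u i) * PowerSeries.X)
    (hτ0 : ∀ z, PowerSeries.constantCoeff (τ z) = algebraMap Ω Ω' (algebraMap F Ω z))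
    (hτ : ∀ v k, 1 ≤ k → PowerSeries.coeff k (τ (y v)) =
      PowerSeries.constantCoeff (lin (o v) (W k)))
    (G : V × Fin (d + 1) → MvPolynomial ι (PowerSeries Ω))
    (hG0 : ∀ v, MvPolynomial.eval₂ (PowerSeries.map (algebraMap Ω Ω'))
        (fun i => PowerSeries.C (u i)) (G (v, 0)) = PowerSeries.X ^ n *
          PowerSeries.map (algebraMap Ω Ω') (κ v))
    (hG : ∀ v (k : Fin (d + 1)), k ≠ 0 →
      MvPolynomial.eval₂ (PowerSeries.map (algebraMap Ω Ω'))
        (fun i => PowerSeries.C (u i)) (G (v, k)) = PowerSeries.X ^ n * lin (o v) (W k))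
    (hGc : NSComp (PowerSeries Ω) ι (V × Fin (d + 1)) M G) :
    Deg K (Option ι) (M + Fintype.card V * ((d + 1) * (d + 2) / 2)) f := by
  have hF : ∀ v : V × Fin (d + 1), ∃ Fv : MvPolynomial ι (PowerSeries Ω),
      G v = C (PowerSeries.X ^ n) * Fv ∧
      aeval u (MvPolynomial.map PowerSeries.constantCoeff Fv) =
        PowerSeries.coeff (v.2 : ℕ) (τ (y v.1)) := by
    intro v
    by_cases hk : v.2 = 0
    · have hv : v = (v.1, 0) := Prod.ext rfl hk
      obtain ⟨Fv, h1, h2⟩ := hCMP Ω Ω' ι u n (G (v.1, 0)) _ hu (hG0 v.1)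
      refine ⟨Fv, ?_, ?_⟩
      · rw [← h1, ← hv]
      · rw [h2, const_map, hκ v.1, ← hτ0 (y v.1), hk,
          ← PowerSeries.coeff_zero_eq_constantCoeff_apply]
        rfl
    · obtain ⟨Fv, h1, h2⟩ := hCMP Ω Ω' ι u n (G (v.1, v.2)) _ hu (hG v.1 v.2 hk)
      have hk1 : 1 ≤ (v.2 : ℕ) := Nat.one_le_iff_ne_zero.mpr fun h => hk (Fin.ext h)
      refine ⟨Fv, h1, ?_⟩
      rw [h2, hτ v.1 v.2 hk1]
  choose Fv hFG hFv using hF
  have h0 : ∀ v (k : Fin (d + 1)), aeval u (MvPolynomial.map PowerSeries.constantCoeff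
      (Fv (v, k))) = PowerSeries.coeff (k : ℕ) (τ (y v)) := fun v k => hFv (v, k)
  have h1 := hID K F Ω Ω' ι V x u τ y d f
    (fun v => MvPolynomial.map PowerSeries.constantCoeff (Fv v)) hu hKΩ' hτK hτx
  have h2 := h1 h0
  have h3 := h2 hd
  have h4 := h3 hf
  exact finishD hBAS hSHIFT hPROD M n d f
    (fun i => algebraMap F Ω (x i)) G Fv hGc hFG h4

/-- **The main theorem over a large field.** -/
theorem mainD (hTAY : S_TAY2) (hCMP : S_CMP) (hREC : S_REC2) (hBAS : S_BAS) (hSHIFT : S_SHIFT)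
    (hPROD : S_PROD) (hID : S_ID) {K F : Type} [Field K] [CharZero K] [Field F]
    [IsAlgClosed F] [Algebra K F]
    {ι σ V : Type} [Fintype ι] [Fintype σ] [Fintype V] {L M d : ℕ} {J₂ J₃ : Type}
    [Fintype J₂] [Fintype J₃] (α β δ : Fin L → AF K (ι ⊕ Fin 0 ⊕ σ))
    (lin : J₂ → AF K (ι ⊕ Fin 0 ⊕ σ)) (ne : J₃ → AF K (ι ⊕ Fin 0 ⊕ σ))
    (o : V → AF K (ι ⊕ Fin 0 ⊕ σ)) (x : ι → F) (hx : AlgebraicIndependent K x) (a : Fin 0 → F)
    (s₀ : σ → F) (h0 : Sat α β δ lin ne (pnt x a s₀)) (𝒞 : Fin M → V → F)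
    (sound : ∀ s, Sat α β δ lin ne (pnt x a s) → ∃ i, ∀ v, (o v).val (pnt x a s) = 𝒞 i v)
    (y : V → F) (hy : ∀ v, (o v).val (pnt x a s₀) = y v)
    (f : MvPolynomial (Option ι) K) (hd : f.totalDegree ≤ d)
    (hf : (aeval (fun j => Option.elim j Polynomial.X fun i => Polynomial.C (x i) :
      Option ι → Polynomial F) f = ∏ v, (Polynomial.X - Polynomial.C (y v)))) :
    Deg K (Option ι) (L * (d * (d - 1) / 2) + Fintype.card V * ((d + 1) * (d + 2) / 2)) f := by
  obtain ⟨T, Ω₁, _, _, w₀, hT, hiso, hout⟩ := component α β δ lin ne o x a s₀ h0 𝒞 sound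
  obtain ⟨Ω, _, _, _, _, w₁, γ, g, e, c, hAI, hg, heq, hval⟩ := solve (K := K) x a T w₀
    (Sum.elim α fun _ => 0 : Fin L ⊕ J₂ → AF K (ι ⊕ Fin 0 ⊕ σ))
    (Sum.elim β fun _ => 0 : Fin L ⊕ J₂ → AF K (ι ⊕ Fin 0 ⊕ σ))
    (Sum.elim δ lin : Fin L ⊕ J₂ → AF K (ι ⊕ Fin 0 ⊕ σ)) hT hiso
  have hval' : ∀ v, PowerSeries.constantCoeff ((o v).val (pt x a T w₁ g)) =
      algebraMap F Ω (y v) := fun v => hval (o v) _ (by rw [hout, hy])
  obtain ⟨Ω', _, _, _, u, lam, mu, W, τ, hu, hKΩ', hW, hτK, hτx, hτ0, hτ⟩ :=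
    hTAY K F Ω ι σ (Fin L ⊕ J₂) x a T w₁ g γ e _ _ _ c hx hAI hg heq
  obtain ⟨G, hG0, hG, hGc⟩ := hREC K Ω Ω' ι (ι ⊕ Fin 0 ⊕ σ) V J₂ L d e _ _ lam mu u W o
    (fun v => (o v).val (pt x a T w₁ g)) hKΩ' (fun _ => rfl) hW
  exact midD hCMP hBAS hSHIFT hPROD hID o x y (fun v => (o v).val (pt x a T w₁ g)) hval'
    f hd hf u W τ hu hKΩ' hτK hτx hτ0 (fun v k hk => hτ (o v) (y v) (hval' v) k hk) G hG0 hG hGc

/-- **The general theorem for components of codimension one.** -/
theorem genD (hTAY : S_TAY2) (hCMP : S_CMP) (hREC : S_REC2) (hBAS : S_BAS) (hSHIFT : S_SHIFT)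
    (hPROD : S_PROD) (hID : S_ID) (hDIR : S_DIR) (hRES : S_RES)
    {K ι : Type} [Field K] [IsAlgClosed K] [CharZero K] [Fintype ι] {L : ℕ} (t : NTree K ι)
    (f g h : MvPolynomial ι K) (hf0 : f ≠ 0) (hfg : IsRelPrime f g) (hh0 : h ≠ 0)
    (H1 : ∀ x, eval x f = 0 → eval x g ≠ 0 → t.Accepts x L)
    (H2 : ∀ x, t.Accepts x L → eval x h = 0) :
    Deg K ι (f.totalDegree * L * (f.totalDegree * (f.totalDegree - 1) / 2) +
        f.totalDegree * ((f.totalDegree + 1) * (f.totalDegree + 2) / 2)) f := by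
  classical
  obtain ⟨d, hd⟩ : ∃ d, f.totalDegree = d := ⟨_, rfl⟩
  obtain ⟨a, c, hc, hY⟩ := hDIR K ι f hf0
  rw [hd] at hY ⊢
  choose Y hY using hY
  have : Infinite K := CharZero.infinite K
  obtain ⟨R, hR0, hR⟩ := hRES K ι f g a hfg
  obtain ⟨I, 𝒰, x, hx, hindep⟩ := exists_generic_dense (K := K) (κ := ι)
    (fun x => eval x R ≠ 0 ∧ eval x h ≠ 0) (by
    intro p hp
    by_contra hcon
    have h1 : p * (R * h) = 0 := by
      refine MvPolynomial.funext fun z => ?_
      rw [map_zero, map_mul, map_mul]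
      by_contra hz
      exact hcon ⟨z, left_ne_zero_of_mul hz, left_ne_zero_of_mul (right_ne_zero_of_mul hz),
        right_ne_zero_of_mul (right_ne_zero_of_mul hz)⟩
    exact (mul_ne_zero hp (mul_ne_zero hR0 hh0)) h1)
  have hline : ∀ (z : ι → K) (r : K), eval (fun i => z i + r * a i) f =
      c * ∏ v, (r - Y z v) := by
    intro z r
    have h1 := congrArg (Polynomial.eval r) (hY z)
    rw [Polynomial.eval_mul, Polynomial.eval_C, Polynomial.eval_prod, eval_line] at h1
    simpa only [Polynomial.eval_sub, Polynomial.eval_X, Polynomial.eval_C] using h1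
  have hroot : ∀ (z : ι → K) (r : K), eval (fun i => z i + r * a i) f = 0 ↔
      ∃ v, r = Y z v := by
    intro z r
    rw [hline, mul_eq_zero, or_iff_right hc, Finset.prod_eq_zero_iff]
    simp only [Finset.mem_univ, true_and, sub_eq_zero]
  have hpath : ∀ S, ∃ p ∈ {p : Fin d → Path K ι | ∀ v, p v ∈ paths t},
      ∀ v, (p v).muls ≤ L ∧ ∃ g' : ℕ → K,
        (p v).Ok (fun i => x S i + Y (x S) v * a i) g' 0 := by
    intro S
    have h1 : ∀ v, ∃ p ∈ paths t, p.muls ≤ L ∧ ∃ g' : ℕ → K,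
        p.Ok (fun i => x S i + Y (x S) v * a i) g' 0 := by
      intro v
      obtain ⟨p, hp, hm, g', -, hok⟩ := path_of_acc _ t 0 0 L
        (H1 (fun i => x S i + Y (x S) v * a i) ((hroot _ _).mpr ⟨v, rfl⟩)
          fun h1 => (hx S).1 (hR _ _ ((hroot _ _).mpr ⟨v, rfl⟩) h1))
      exact ⟨p, hp, hm, g', hok⟩
    choose p h1 h2 using h1
    exact ⟨p, h1, h2⟩
  obtain ⟨p, hp, hpS⟩ := ultra_const (𝒰 := 𝒰) _ (Set.Finite.pi' fun _ : Fin d => paths_finite t)
    (fun S (p : Fin d → Path K ι) => ∀ v, (p v).muls ≤ L ∧ ∃ g' : ℕ → K,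
        (p v).Ok (fun i => x S i + Y (x S) v * a i) g' 0) (Eventually.of_forall hpath)
  have hmuls : ∀ v, (p v).muls ≤ L := by
    obtain ⟨S, hS⟩ := hpS.exists
    exact fun v => (hS v).1
  have hg : ∀ S, ∃ g' : Fin d → ℕ → K, (∀ v, (p v).muls ≤ L ∧ ∃ g' : ℕ → K,
        (p v).Ok (fun i => x S i + Y (x S) v * a i) g' 0) →
        ∀ v, (p v).Ok (fun i => x S i + Y (x S) v * a i) (g' v) 0 := by
    intro S
    by_cases h : ∀ v, (p v).muls ≤ L ∧ ∃ g' : ℕ → K,
        (p v).Ok (fun i => x S i + Y (x S) v * a i) g' 0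
    · choose h1 g' hg' using h
      exact ⟨g', fun _ => hg'⟩
    · exact ⟨0, fun h' => absurd h' h⟩
  choose g hg using hg
  have hgS : ∀ᶠ S in (𝒰 : Filter I),
      ∀ v, (p v).Ok (fun i => x S i + Y (x S) v * a i) (g S v) 0 := hpS.mono fun S hS => hg S hS
  obtain ⟨N', hN'⟩ : ∃ N', ∀ v, (p v).fin 0 ≤ N' :=
    ⟨Finset.univ.sup fun v => (p v).fin 0, fun v => Finset.le_sup (f := fun v => (p v).fin 0)
      (Finset.mem_univ v)⟩
  let xF : ι → UP K 𝒰 := fun e => cu 𝒰 (fun S => x S e)
  let aF : Fin 0 → UP K 𝒰 := fun t => t.elim0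
  have hval : ∀ (yy : I → Fin d → K) (gg : I → Fin d → ℕ → K) (v : Fin d) (f : LF K ι),
      (toAFv N' a v f).val (pnt xF aF (Sum.elim (fun v => cu 𝒰 (fun S => yy S v))
        (fun s : Fin d × Fin N' => cu 𝒰 (fun S => gg S s.1 s.2)))) =
        cu 𝒰 (fun S => f.val (fun i => x S i + yy S v * a i) N' (gg S v)) := by
    intro yy gg v f
    have e2 : pnt xF aF (Sum.elim (fun v => cu 𝒰 (fun S => yy S v))
        (fun s : Fin d × Fin N' => cu 𝒰 (fun S => gg S s.1 s.2))) =
        fun i => cu 𝒰 (fun S => pnt (x S) (fun t : Fin 0 => (t.elim0 : K))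
          (Sum.elim (yy S) (fun s : Fin d × Fin N' => gg S s.1 s.2)) i) := by
      funext i
      rcases i with i | i | i | i
      · rfl
      · exact i.elim0
      · rfl
      · rfl
    rw [e2, los_val (𝒰 := 𝒰) (toAFv N' a v f)
      (fun i S => pnt (x S) (fun t : Fin 0 => (t.elim0 : K))
          (Sum.elim (yy S) (fun s : Fin d × Fin N' => gg S s.1 s.2)) i)]
    congr 1
    funext S
    exact toAFv_val N' a v f (x S) _ (yy S) (gg S)
  let W : Type := (v : Fin d) × Fin ((p v).msys 0).length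
  let α' : W → AF K (ι ⊕ Fin 0 ⊕ (Fin d ⊕ (Fin d × Fin N'))) :=
    fun w => toAFv N' a w.1 (((p w.1).msys 0).get w.2).1
  let β' : W → AF K (ι ⊕ Fin 0 ⊕ (Fin d ⊕ (Fin d × Fin N'))) :=
    fun w => toAFv N' a w.1 (((p w.1).msys 0).get w.2).2.1
  let δ' : W → AF K (ι ⊕ Fin 0 ⊕ (Fin d ⊕ (Fin d × Fin N'))) :=
    fun w => toAFv N' a w.1 (((p w.1).msys 0).get w.2).2.2
  let eW : Fin (∑ v, ((p v).msys 0).length) ≃ W := finSigmaFinEquiv.symm
  let lin : ((v : Fin d) × Fin ((p v).lsys 0).length) →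
      AF K (ι ⊕ Fin 0 ⊕ (Fin d ⊕ (Fin d × Fin N'))) :=
    fun w => toAFv N' a w.1 (((p w.1).lsys 0).get w.2)
  let ne : ((v : Fin d) × Fin ((p v).nsys 0).length) →
      AF K (ι ⊕ Fin 0 ⊕ (Fin d ⊕ (Fin d × Fin N'))) :=
    fun w => toAFv N' a w.1 (((p w.1).nsys 0).get w.2)
  have hlist : ∀ {α : Type} (l : List α) (P : α → Prop),
      (∀ x ∈ l, P x) ↔ ∀ j : Fin l.length, P (l.get j) := by
    intro α l P
    refine ⟨fun h j => h _ (List.get_mem l j), fun h x hx => ?_⟩
    obtain ⟨j, hj⟩ := List.get_of_mem hx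
    rw [← hj]
    exact h j
  have hsat : ∀ (yy : I → Fin d → K) (gg : I → Fin d → ℕ → K),
      (Sat (fun j => α' (eW j)) (fun j => β' (eW j)) (fun j => δ' (eW j)) lin ne
        (pnt xF aF (Sum.elim (fun v => cu 𝒰 (fun S => yy S v))
        (fun s : Fin d × Fin N' => cu 𝒰 (fun S => gg S s.1 s.2)))) ↔
        ∀ᶠ S in (𝒰 : Filter I), ∀ v, (p v).Ok (fun i => x S i + yy S v * a i) (gg S v) 0) := by
    intro yy gg
    have e1 : ∀ S v, (p v).Ok (fun i => x S i + yy S v * a i) (gg S v) 0 ↔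
        (∀ j : Fin ((p v).msys 0).length,
          (((p v).msys 0).get j).1.val (fun i => x S i + yy S v * a i) N' (gg S v) *
          (((p v).msys 0).get j).2.1.val (fun i => x S i + yy S v * a i) N' (gg S v) =
          (((p v).msys 0).get j).2.2.val (fun i => x S i + yy S v * a i) N' (gg S v)) ∧
        (∀ j : Fin ((p v).lsys 0).length,
          (((p v).lsys 0).get j).val (fun i => x S i + yy S v * a i) N' (gg S v) = 0) ∧
        (∀ j : Fin ((p v).nsys 0).length,
          (((p v).nsys 0).get j).val (fun i => x S i + yy S v * a i) N' (gg S v) ≠ 0) := by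
      intro S v
      rw [Path.ok_iff _ (gg S v) (p v) 0 N' (hN' v), hlist, hlist, hlist]
    simp only [e1, Filter.eventually_and, Filter.eventually_all]
    constructor
    · intro h v
      refine ⟨fun j => ?_, fun j => ?_, fun j => ?_⟩
      · have := h.mul (eW.symm ⟨v, j⟩)
        simp only [Equiv.apply_symm_apply] at this
        simp only [α', β', δ', hval yy gg, ← map_mul] at this
        exact cu_eq.mp this
      · have := h.lin ⟨v, j⟩
        simp only [lin, hval yy gg] at this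
        exact cu_eq_zero.mp this
      · have := h.ne ⟨v, j⟩
        simp only [ne, hval yy gg] at this
        exact cu_ne_zero.mp this
    · intro h
      refine ⟨fun j => ?_, fun j => ?_, fun j => ?_⟩
      · simp only [α', β', δ', hval yy gg, ← map_mul]
        exact cu_eq.mpr ((h (eW j).1).1 (eW j).2)
      · simp only [lin, hval yy gg]
        exact cu_eq_zero.mpr ((h j.1).2.1 j.2)
      · simp only [ne, hval yy gg]
        exact cu_ne_zero.mpr ((h j.1).2.2 j.2)
  obtain ⟨D, hD⟩ := roots_list h a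
  choose Z hZ using fun S => hD (x S) (hx S).2
  let eM := Fintype.equivFin (Fin d → Fin D)
  let 𝒞F : Fin (Fintype.card (Fin d → Fin D)) → Fin d → UP K 𝒰 :=
    fun i v => cu 𝒰 (fun S => Z S (eM.symm i v))
  let f' : MvPolynomial (Option ι) K := C c⁻¹ *
    aeval (fun i => X (some i) + C (a i) * X none : ι → MvPolynomial (Option ι) K) f
  have hd' : f'.totalDegree ≤ d := by
    refine (totalDegree_mul _ _).trans ?_
    rw [totalDegree_C, zero_add, ← hd]
    refine totalDegree_line _ (fun i => ?_) f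
    refine (totalDegree_add _ _).trans (max_le ?_ ?_)
    · exact (totalDegree_X _).le
    · refine (totalDegree_mul _ _).trans ?_
      rw [totalDegree_C, zero_add]
      exact (totalDegree_X _).le
  have hinf : Infinite (UP K 𝒰) := by
    have : CharZero (UP K 𝒰) := charZero_of_injective_algebraMap (algebraMap K (UP K 𝒰)).injective
    exact CharZero.infinite _
  have hf' : (aeval (fun j => Option.elim j Polynomial.X fun i => Polynomial.C (xF i) :
      Option ι → Polynomial (UP K 𝒰)) f') =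
      ∏ v, (Polynomial.X - Polynomial.C (cu 𝒰 (fun S => Y (x S) v))) := by
    refine Polynomial.funext fun η => ?_
    obtain ⟨r, rfl⟩ := cu_surj (K := K) (𝒰 := 𝒰) η
    rw [eval_opt, map_mul, aeval_C, aeval_line, Polynomial.eval_prod]
    simp only [Polynomial.eval_sub, Polynomial.eval_X, Polynomial.eval_C]
    have e1 : (fun i => xF i + algebraMap K (UP K 𝒰) (a i) * cu 𝒰 r) =
        fun i => cu 𝒰 (fun S => x S i + r S * a i) := by
      funext i
      show cu 𝒰 _ + cu 𝒰 _ * cu 𝒰 _ = _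
      rw [← map_mul, ← map_add]
      congr 1
      funext S
      show x S i + a i * r S = _
      ring
    rw [e1, cu_aeval (fun S i => x S i + r S * a i) f]
    have e2 : ∀ v, cu 𝒰 r - cu 𝒰 (fun S => Y (x S) v) = cu 𝒰 (fun S => r S - Y (x S) v) :=
      fun v => (map_sub (cu (K := K) 𝒰) _ _).symm
    simp only [e2, hline]
    rw [← map_prod]
    show cu 𝒰 _ * cu 𝒰 _ = _
    rw [← map_mul]
    congr 1
    funext S
    show c⁻¹ * (c * ∏ v, (r S - Y (x S) v)) = (∏ v, fun S => r S - Y (x S) v) S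
    rw [Finset.prod_apply, inv_mul_cancel_left₀ hc]
  have key := mainD (K := K) (F := UP K 𝒰) (M := Fintype.card (Fin d → Fin D)) (d := d)
    hTAY hCMP hREC hBAS hSHIFT hPROD hID
    (fun j => α' (eW j)) (fun j => β' (eW j)) (fun j => δ' (eW j)) lin ne
    (fun v => outAF2 v) xF hindep aF
    (Sum.elim (fun v => cu 𝒰 (fun S => Y (x S) v))
      (fun s : Fin d × Fin N' => cu 𝒰 (fun S => g S s.1 s.2)))
    ((hsat (fun S v => Y (x S) v) g).mpr hgS) 𝒞F
    (by
      intro s hs
      choose r hr using cu_surj (K := K) (𝒰 := 𝒰)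
      let yy : I → Fin d → K := fun S v => r (s (Sum.inl v)) S
      let gg : I → Fin d → ℕ → K := fun S v t =>
        if h : t < N' then r (s (Sum.inr (v, ⟨t, h⟩))) S else 0
      have hgg' : ∀ S v, ∀ t : Fin N', gg S v t = r (s (Sum.inr (v, t))) S := by
        intro S v t
        simp only [gg, dif_pos t.2]
      have hs' : s = Sum.elim (fun v => cu 𝒰 (fun S => yy S v))
          (fun t : Fin d × Fin N' => cu 𝒰 (fun S => gg S t.1 t.2)) := by
        funext t
        rcases t with v | t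
        · exact (hr (s (Sum.inl v))).symm
        · simp only [Sum.elim_inr, hgg']
          exact (hr (s (Sum.inr t))).symm
      rw [hs'] at hs
      have h1 := (hsat yy gg).mp hs
      have h2 : ∀ᶠ S in (𝒰 : Filter I), ∃ φ ∈ (Set.univ : Set (Fin d → Fin D)),
          ∀ v, yy S v = Z S (φ v) := by
        filter_upwards [h1] with S hS
        have h3 : ∀ v, ∃ w, yy S v = Z S w := by
          intro v
          refine hZ S _ (H2 _ ?_)
          exact acc_of_path _ t 0 0 L (p v) (hp v) (hmuls v) (gg S v)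
            (fun s hs => absurd hs (Nat.not_lt_zero s)) (hS v)
        choose φ hφ using h3
        exact ⟨φ, Set.mem_univ _, hφ⟩
      obtain ⟨φ, -, hφ⟩ := ultra_const (𝒰 := 𝒰) Set.univ Set.finite_univ _ h2
      refine ⟨eM φ, fun v => ?_⟩
      rw [outAF2_val, hs']
      show cu 𝒰 (fun S => yy S v) = cu 𝒰 (fun S => Z S (eM.symm (eM φ) v))
      rw [Equiv.symm_apply_apply]
      refine cu_eq.mpr ?_
      filter_upwards [hφ] with S hS
      exact hS v)
    (fun v => cu 𝒰 (fun S => Y (x S) v)) (fun v => by rw [outAF2_val]; rfl)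
    f' hd' hf'
  refine Deg.sub a c f hc (key.mono ?_)
  rw [Fintype.card_fin]
  refine Nat.add_le_add_right (Nat.mul_le_mul_right _ ?_) _
  calc ∑ v, ((p v).msys 0).length ≤ ∑ _v : Fin d, L :=
        Finset.sum_le_sum fun v _ => by rw [Pool.Agent.W966.Vg.Path.msys_length]; exact hmuls v
    _ = d * L := by simp

end Pool.Agent.R562.ND
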